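import Pool.Agent.H106FJ.Core2

/-!
# Kernels that are groups of units of locally finite dimensional algebras
-/

set_option autoImplicit false
set_option linter.unusedSectionVars false
set_option linter.style.haveILetI false

namespace Pool.Agent.H106FJ

open Pool.Agent.Y462.SS Pool.Agent.Q152.WP Pool.Agent.Q105.FJ

variable {C : ∀ (G : Type) [Group G], Prop}

section modules

variable {k A : Type} [Field k] [Ring A] [Algebra k A]

/-- Two modules of the same finite dimension over a simple finite dimensional algebra are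
isomorphic. -/
theorem exists_equiv [IsSimpleRing A] [FiniteDimensional k A] (M M' : Type) [AddCommGroup M]
    [AddCommGroup M'] [Module A M] [Module A M'] [Module k M] [Module k M'] [IsScalarTower k A M]
    [IsScalarTower k A M'] [FiniteDimensional k M] [FiniteDimensional k M']
    (h : Module.finrank k M = Module.finrank k M') : Nonempty (M ≃ₗ[A] M') := by
  classical
  haveI : IsArtinianRing A := isArtinian_of_tower k inferInstance
  haveI : IsSemisimpleRing A := IsSimpleRing.isSemisimpleRing_iff_isArtinianRing.2 inferInstance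
  have hA : IsIsotypic A A := (isSimpleRing_isArtinianRing_iff.1 ⟨inferInstance, inferInstance⟩).2.1
  haveI : Module.Finite A M := Module.Finite.of_restrictScalars_finite k A M
  haveI : Module.Finite A M' := Module.Finite.of_restrictScalars_finite k A M'
  rcases subsingleton_or_nontrivial M with hM | hM
  · have h0 : Module.finrank k M = 0 := Module.finrank_zero_of_subsingleton
    rw [h0] at h
    haveI : Subsingleton M' := Module.finrank_zero_iff.1 h.symm
    exact ⟨0, 0, fun _ => Subsingleton.elim _ _, fun _ => Subsingleton.elim _ _⟩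
  have hN : IsIsotypic A (M × M') := hA.of_self (M × M')
  obtain ⟨S, hS⟩ := IsAtomic.exists_atom (Submodule A (M × M'))
  rw [← isSimpleModule_iff_isAtom] at hS
  have hNS := hN S
  obtain ⟨n, ⟨e⟩⟩ := (hNS.of_injective (LinearMap.inl A M M') LinearMap.inl_injective).linearEquiv_fun
  obtain ⟨n', ⟨e'⟩⟩ :=
    (hNS.of_injective (LinearMap.inr A M M') LinearMap.inr_injective).linearEquiv_fun
  haveI : Module.Finite k S := Module.Finite.of_injective
    (S.subtype.restrictScalars k) Subtype.val_injective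
  have h1 : Module.finrank k M = n * Module.finrank k S := by
    rw [(e.restrictScalars k).finrank_eq, Module.finrank_pi_fintype]
    simp
  have h2 : Module.finrank k M' = n' * Module.finrank k S := by
    rw [(e'.restrictScalars k).finrank_eq, Module.finrank_pi_fintype]
    simp
  haveI : Nontrivial S := IsSimpleModule.nontrivial A S
  have h3 : 0 < Module.finrank k S := Module.finrank_pos
  have h4 : n = n' := by
    rw [h1, h2] at h
    exact Nat.eq_of_mul_eq_mul_right h3 h
  subst h4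
  exact ⟨e.trans e'.symm⟩

end modules

section via

variable {k A S : Type} [Field k] [Ring A] [Algebra k A] [Ring S] [Algebra k S]

/-- the algebra `S` as a module over `A` by a homomorphism `A → S` -/
def Via (_ : A →ₐ[k] S) : Type := S

instance (f : A →ₐ[k] S) : AddCommGroup (Via f) := inferInstanceAs (AddCommGroup S)

instance (f : A →ₐ[k] S) : Module k (Via f) := inferInstanceAs (Module k S)

instance (f : A →ₐ[k] S) : Module A (Via f) := Module.compHom S f.toRingHom

/-- the element of the algebra as an element of the module -/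
def Via.mk (f : A →ₐ[k] S) (v : S) : Via f := v

theorem via_smul (f : A →ₐ[k] S) (a : A) (v : S) : a • Via.mk f v = Via.mk f (f a * v) := rfl

instance (f : A →ₐ[k] S) : IsScalarTower k A (Via f) := ⟨fun c a v => by
  have h : ∀ w : S, (c • a) • Via.mk f w = c • (a • Via.mk f w) := by
    intro w
    rw [via_smul, via_smul, map_smul]
    exact smul_mul_assoc c (f a) w
  exact h v⟩

instance (f : A →ₐ[k] S) [h : FiniteDimensional k S] : FiniteDimensional k (Via f) := h

/-- Two homomorphisms from a simple algebra to a finite dimensional algebra become conjugate in a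
matrix algebra. -/
theorem exists_matrix [IsSimpleRing A] [FiniteDimensional k A] [FiniteDimensional k S]
    (f f' : A →ₐ[k] S) : ∃ (m : ℕ) (ρ : S →ₐ[k] Matrix (Fin m) (Fin m) k)
      (g : (Matrix (Fin m) (Fin m) k)ˣ), Function.Injective ρ ∧
      ∀ a, (g : Matrix (Fin m) (Fin m) k) * ρ (f a) = ρ (f' a) * g := by
  classical
  have he0 : Nonempty (Via f ≃ₗ[A] Via f') :=
    exists_equiv (k := k) (A := A) (Via f) (Via f') rfl
  obtain ⟨e⟩ := he0
  let e' : S ≃ₗ[k] S := e.restrictScalars k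
  have he' : ∀ a (v : S), e' (f a * v) = f' a * e' v := by
    intro a v
    exact e.map_smul a (Via.mk f v)
  let b := Module.finBasis k S
  let E : Module.End k S ≃ₐ[k] Matrix (Fin (Module.finrank k S)) (Fin (Module.finrank k S)) k :=
    LinearMap.toMatrixAlgEquiv b
  let u : (Module.End k S)ˣ :=
    ⟨e'.toLinearMap, e'.symm.toLinearMap, by ext v; simp, by ext v; simp⟩
  refine ⟨Module.finrank k S, E.toAlgHom.comp (Algebra.lmul k S),
    Units.map E.toAlgHom.toRingHom.toMonoidHom u, ?_, ?_⟩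
  · exact E.injective.comp Algebra.lmul_injective
  · intro a
    change E (e'.toLinearMap) * E (Algebra.lmul k S (f a)) =
      E (Algebra.lmul k S (f' a)) * E (e'.toLinearMap)
    rw [← map_mul, ← map_mul]
    congr 1
    ext v
    exact he' a v

/-- a finite dimensional algebra is an algebra of matrices -/
theorem exists_matrix_one [FiniteDimensional k S] :
    ∃ (m : ℕ) (ρ : S →ₐ[k] Matrix (Fin m) (Fin m) k), Function.Injective ρ := by
  classical
  let b := Module.finBasis k S
  let E : Module.End k S ≃ₐ[k] Matrix (Fin (Module.finrank k S)) (Fin (Module.finrank k S)) k :=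
    LinearMap.toMatrixAlgEquiv b
  exact ⟨Module.finrank k S, E.toAlgHom.comp (Algebra.lmul k S),
    E.injective.comp Algebra.lmul_injective⟩

end via

section units

variable {k R : Type} [Field k] [Ring R] [Algebra k R]

/-- the units of the algebra which are units of the subalgebra -/
def US (S : Subalgebra k R) : Subgroup Rˣ where
  carrier := {u | (u : R) ∈ S ∧ ((u⁻¹ : Rˣ) : R) ∈ S}
  one_mem' := ⟨by simpa using S.one_mem, by simpa using S.one_mem⟩
  mul_mem' := by
    rintro a b ⟨ha, ha'⟩ ⟨hb, hb'⟩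
    refine ⟨by simpa using S.mul_mem ha hb, ?_⟩
    rw [mul_inv_rev]
    simpa using S.mul_mem hb' ha'
  inv_mem' := by
    rintro a ⟨ha, ha'⟩
    exact ⟨ha', by simpa using ha⟩

theorem US_mono {S T : Subalgebra k R} (h : S ≤ T) : US S ≤ US T := fun _ hu => ⟨h hu.1, h hu.2⟩

/-- the representation of the units of the subalgebra -/
def repU (S : Subalgebra k R) {m : ℕ} (ρ : S →ₐ[k] Matrix (Fin m) (Fin m) k) :
    US S →* (Matrix (Fin m) (Fin m) k)ˣ where
  toFun u := ⟨ρ ⟨u.1, u.2.1⟩, ρ ⟨(u.1⁻¹ : Rˣ), u.2.2⟩, by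
    rw [← map_mul, ← map_one ρ]
    congr 1
    exact Subtype.ext u.1.mul_inv, by
    rw [← map_mul, ← map_one ρ]
    congr 1
    exact Subtype.ext u.1.inv_mul⟩
  map_one' := by
    ext1
    change ρ ⟨((1 : Rˣ) : R), _⟩ = 1
    rw [← map_one ρ]
    congr 1
  map_mul' a b := by
    ext1
    change ρ ⟨((a.1 * b.1 : Rˣ) : R), _⟩ = ρ ⟨a.1, _⟩ * ρ ⟨b.1, _⟩
    rw [← map_mul]
    congr 1

theorem repU_injective (S : Subalgebra k R) {m : ℕ} (ρ : S →ₐ[k] Matrix (Fin m) (Fin m) k)
    (h : Function.Injective ρ) : Function.Injective (repU S ρ) := by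
  intro u v huv
  have h1 : ρ ⟨u.1, u.2.1⟩ = ρ ⟨v.1, v.2.1⟩ := congrArg Units.val huv
  have h2 := congrArg Subtype.val (h h1)
  exact Subtype.ext (Units.ext h2)

/-- The finite dimensional subalgebra `S` contains `A` and `σ(A)`, and the two homomorphisms of `A`
are conjugate in some faithful representation of `S`. -/
def Good (σ : R ≃ₐ[k] R) (A S : Subalgebra k R) : Prop :=
  ∃ (h : A ≤ S) (h' : ∀ a ∈ A, σ a ∈ S) (m : ℕ) (ρ : S →ₐ[k] Matrix (Fin m) (Fin m) k)
    (g : (Matrix (Fin m) (Fin m) k)ˣ), Function.Injective ρ ∧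
    ∀ a (ha : a ∈ A), (g : Matrix (Fin m) (Fin m) k) * ρ ⟨a, h ha⟩ = ρ ⟨σ a, h' a ha⟩ * g

/-- The automorphism `σ` of the algebra is locally induced by conjugations in matrix algebras. -/
def Matched (σ : R ≃ₐ[k] R) : Prop :=
  ∀ T : Finset R, ∃ A S : Subalgebra k R, (T : Set R) ⊆ A ∧ Good σ A S

/-- every finite subset is contained in a finite dimensional subalgebra -/
def LocFD (k R : Type) [Field k] [Ring R] [Algebra k R] : Prop :=
  ∀ T : Finset R, ∃ S : Subalgebra k R, (T : Set R) ⊆ S ∧ FiniteDimensional k S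

/-- every finite subset is contained in a finite dimensional simple subalgebra -/
def LocSimple (k R : Type) [Field k] [Ring R] [Algebra k R] : Prop :=
  ∀ T : Finset R, ∃ S : Subalgebra k R, (T : Set R) ⊆ S ∧ FiniteDimensional k S ∧ IsSimpleRing S

theorem Good.fd {σ : R ≃ₐ[k] R} {A S : Subalgebra k R} (h : Good σ A S) :
    FiniteDimensional k S := by
  obtain ⟨_, _, m, ρ, g, hρ, _⟩ := h
  exact Module.Finite.of_injective ρ.toLinearMap hρ

/-- a finite dimensional subalgebra is contained in every subalgebra containing a suitable finite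
set -/
theorem exists_finset (S : Subalgebra k R) [FiniteDimensional k S] :
    ∃ T : Finset R, ∀ S' : Subalgebra k R, (T : Set R) ⊆ S' → S ≤ S' := by
  classical
  have h1 : S.toSubmodule.FG := by
    rw [← Module.Finite.iff_fg]
    infer_instance
  obtain ⟨T, hT⟩ := h1
  refine ⟨T, fun S' h x hx => ?_⟩
  have hx' : x ∈ S.toSubmodule := hx
  rw [← hT] at hx'
  exact (Submodule.span_le.2 h : Submodule.span k (T : Set R) ≤ S'.toSubmodule) hx'

/-- in locally simple algebras all automorphisms are matched -/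
theorem LocSimple.matched (h : LocSimple k R) (σ : R ≃ₐ[k] R) : Matched σ := by
  classical
  intro T
  obtain ⟨A, hTA, hA, hA'⟩ := h T
  obtain ⟨T', hT'⟩ := exists_finset A
  obtain ⟨S, hS, hS', _⟩ := h (T' ∪ T'.image σ)
  have h1 : A ≤ S := hT' S (fun x hx => hS (by
    rw [Finset.coe_union]
    exact Or.inl hx))
  have h2 : A ≤ S.comap σ.toAlgHom := hT' _ (fun x hx => hS (by
    rw [Finset.coe_union]
    exact Or.inr (Finset.mem_coe.2 (Finset.mem_image_of_mem _ hx))))
  let f : A →ₐ[k] S := Subalgebra.inclusion h1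
  let f' : A →ₐ[k] S := (σ.toAlgHom.comp A.val).codRestrict S (fun a => h2 a.2)
  obtain ⟨m, ρ, g, hρ, hg⟩ := exists_matrix f f'
  refine ⟨A, S, hTA, h1, fun a ha => h2 ha, m, ρ, g, hρ, fun a ha => ?_⟩
  exact hg ⟨a, ha⟩

theorem LocSimple.fd (h : LocSimple k R) : LocFD k R := fun T => by
  obtain ⟨S, h1, h2, _⟩ := h T
  exact ⟨S, h1, h2⟩

end units

/-- **Kernels that are groups of units of locally finite dimensional algebras.** -/
theorem alg_kernel (hC : Closed C) (hE : ExtClosed C) {k R : Type} [Field k] [Ring R] [Algebra k R]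
    (hk : ∀ m : ℕ, C (Matrix (Fin m) (Fin m) k)ˣ) (hR : LocFD k R) {G Q : Type} [Group G]
    [Group Q] (f : G →* Q) (hf : Function.Surjective f) (hQ : C Q) (ι : f.ker →* Rˣ)
    (hι : Function.Injective ι)
    (h : ∀ g : G, ¬ IsOfFinOrder (f g) → ∃ σ : R ≃ₐ[k] R, Matched σ ∧
      ∀ x : f.ker, (ι (MulAut.conjNormal g x) : R) = σ (ι x)) : C G := by
  classical
  refine dir_kernel hC hE f hf hQ ?_ ?_
  · -- the kernel
    let I : Type := {S : Subalgebra k R // FiniteDimensional k S}
    have hdir : ∀ i j : I, ∃ l : I, i ≤ l ∧ j ≤ l := by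
      rintro ⟨S, hS⟩ ⟨T, hT⟩
      obtain ⟨A, hA⟩ := exists_finset S
      obtain ⟨B, hB⟩ := exists_finset T
      obtain ⟨U, hU, hU'⟩ := hR (A ∪ B)
      rw [Finset.coe_union] at hU
      exact ⟨⟨U, hU'⟩, hA U (fun x hx => hU (Or.inl hx)), hB U (fun x hx => hU (Or.inr hx))⟩
    haveI : Nonempty I := by
      obtain ⟨U, _, hU'⟩ := hR ∅
      exact ⟨⟨U, hU'⟩⟩
    refine Pool.Agent.Y430.SS.of_directed hC _ I hdir (fun i => (US i.1).comap ι) ?_ ?_ ?_
    · intro i j hij x hx
      exact US_mono hij hx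
    · intro x
      obtain ⟨U, hU, hU'⟩ := hR {((ι x : Rˣ) : R), (((ι x)⁻¹ : Rˣ) : R)}
      refine ⟨⟨U, hU'⟩, hU ?_, hU ?_⟩
      · simp
      · simp
    · rintro ⟨S, hS⟩
      obtain ⟨m, ρ, hρ⟩ := exists_matrix_one (k := k) (S := S)
      let j : ((US S).comap ι) →* US S :=
        (ι.comp ((US S).comap ι).subtype).codRestrict (US S) (fun x => x.2)
      refine hC.of_injective _ _ ((repU S ρ).comp j) ?_ (hk m)
      refine (repU_injective S ρ hρ).comp ?_
      intro x y hxy
      exact Subtype.ext (hι (congrArg Subtype.val hxy))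
  intro q hq
  obtain ⟨g, rfl⟩ := hf q
  obtain ⟨σ, hσ, hg⟩ := h g hq
  have hinv : ∀ x : f.ker, (((ι (MulAut.conjNormal g x))⁻¹ : Rˣ) : R) = σ (((ι x)⁻¹ : Rˣ) : R) := by
    intro x
    rw [← map_inv, ← map_inv, ← map_inv]
    exact hg x⁻¹
  let I : Type := {p : Subalgebra k R × Subalgebra k R // Good σ p.1 p.2}
  let pr : I → Pair g := fun i =>
    { A := ((US i.1.1).comap ι).map f.ker.subtype
      F := ((US i.1.2).comap ι).map f.ker.subtype
      hA := by
        rintro _ ⟨x, hx, rfl⟩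
        obtain ⟨h1, _⟩ := i.2
        exact ⟨x, US_mono h1 hx, rfl⟩
      hB := by
        rintro _ ⟨x, hx, rfl⟩
        obtain ⟨h1, h2, _⟩ := i.2
        refine ⟨MulAut.conjNormal g x, ⟨?_, ?_⟩, rfl⟩
        · rw [hg]
          exact h2 _ hx.1
        · rw [hinv]
          exact h2 _ hx.2 }
  have hpr : ∀ i j : I, i.1.1 ≤ j.1.1 → i.1.2 ≤ j.1.2 → pr i ≤ pr j := by
    intro i j h1 h2
    constructor
    · rintro _ ⟨x, hx, rfl⟩
      exact ⟨x, US_mono h1 hx, rfl⟩
    · rintro _ ⟨x, hx, rfl⟩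
      exact ⟨x, US_mono h2 hx, rfl⟩
  refine ⟨g, rfl, Set.range pr, ⟨?_, ?_, ?_, ?_⟩, ?_⟩
  · obtain ⟨A, S, _, hS⟩ := hσ ∅
    exact ⟨_, ⟨⟨(A, S), hS⟩, rfl⟩⟩
  · rintro _ ⟨i, rfl⟩ _ ⟨x, hx, rfl⟩
    exact x.2
  · rintro _ ⟨i, rfl⟩ _ ⟨j, rfl⟩
    haveI := i.2.fd
    haveI := j.2.fd
    obtain ⟨T, hT⟩ := exists_finset i.1.2
    obtain ⟨T', hT'⟩ := exists_finset j.1.2
    obtain ⟨A, S, hA, hS⟩ := hσ (T ∪ T')
    rw [Finset.coe_union] at hA
    have hAS : A ≤ S := by
      obtain ⟨h1, _⟩ := hS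
      exact h1
    have h1 : i.1.2 ≤ A := hT A (fun x hx => hA (Or.inl hx))
    have h2 : j.1.2 ≤ A := hT' A (fun x hx => hA (Or.inr hx))
    have h3 : i.1.1 ≤ i.1.2 := by
      obtain ⟨h, _⟩ := i.2
      exact h
    have h4 : j.1.1 ≤ j.1.2 := by
      obtain ⟨h, _⟩ := j.2
      exact h
    exact ⟨_, ⟨⟨(A, S), hS⟩, rfl⟩, hpr _ _ (h3.trans h1) (h1.trans hAS),
      hpr _ _ (h4.trans h2) (h2.trans hAS)⟩
  · intro x hx
    obtain ⟨A, S, hA, hS⟩ := hσ {((ι ⟨x, hx⟩ : Rˣ) : R), (((ι ⟨x, hx⟩)⁻¹ : Rˣ) : R)}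
    refine ⟨_, ⟨⟨(A, S), hS⟩, rfl⟩, ⟨x, hx⟩, ⟨hA ?_, hA ?_⟩, rfl⟩
    · simp
    · simp
  · rintro _ ⟨⟨⟨A, S⟩, hAS⟩, rfl⟩
    obtain ⟨h1, h2, m, ρ, γ, hρ, hγ⟩ := hAS
    let N := ((US S).comap ι)
    let N' := ((US A).comap ι)
    let j : N →* US S := (ι.comp N.subtype).codRestrict (US S) (fun x => x.2)
    refine Ext.of_inj _ (N := N) (A' := N') (Q := (Matrix (Fin m) (Fin m) k)ˣ)
      (f.ker.subtype.comp N.subtype) (f.ker.subtype_injective.comp N.subtype_injective) ?_
      (Subgroup.inclusion (fun x hx => US_mono h1 hx))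
      { toFun := fun x => ⟨MulAut.conjNormal g x.1, ⟨by
          rw [hg]
          exact h2 _ x.2.1, by
          rw [hinv]
          exact h2 _ x.2.2⟩⟩
        map_one' := by
          apply Subtype.ext
          exact map_one (MulAut.conjNormal g)
        map_mul' := fun x y => by
          apply Subtype.ext
          exact map_mul (MulAut.conjNormal g) x.1 y.1 } ?_ ?_ ((repU S ρ).comp j) ?_ γ ?_ (hk m)
    · ext x
      constructor
      · rintro ⟨y, rfl⟩
        exact ⟨y.1, y.2, rfl⟩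
      · rintro ⟨y, hy, rfl⟩
        exact ⟨⟨y, hy⟩, rfl⟩
    · rintro _ ⟨x, hx, rfl⟩
      exact ⟨⟨x, hx⟩, rfl⟩
    · intro x
      rfl
    · refine (repU_injective S ρ hρ).comp ?_
      intro x y hxy
      exact Subtype.ext (hι (congrArg Subtype.val hxy))
    · intro x
      ext1
      have h3 := hγ _ x.2.1
      change (γ : Matrix (Fin m) (Fin m) k) * ρ ⟨((ι x.1 : Rˣ) : R), _⟩ =
        ρ ⟨((ι (MulAut.conjNormal g x.1) : Rˣ) : R), _⟩ * γ
      rw [h3]
      congr 2
      exact Subtype.ext (hg x.1).symm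

end Pool.Agent.H106FJ
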