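import Pool.Agent.H106FJ.Core

/-!
# Extensions on whose kernels the automorphisms are locally conjugations in groups of the class
-/

set_option autoImplicit false
set_option linter.unusedSectionVars false
set_option linter.style.haveILetI false

namespace Pool.Agent.H106FJ

open Pool.Agent.Y462.SS Pool.Agent.Q152.WP Pool.Agent.Q105.FJ

variable {C : ∀ (G : Type) [Group G], Prop}

/-- The map `α` of `M` is locally induced by conjugations in groups of the class. -/
def Appr (C : ∀ (G : Type) [Group G], Prop) {M : Type} [Group M] (α : M → M) : Prop :=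
  ∃ (I : Type) (_ : Preorder I) (F A : I → Type) (_ : ∀ i, Group (F i)) (_ : ∀ i, Group (A i))
    (m : ∀ i, F i →* M) (a b : ∀ i, A i →* F i),
    Nonempty I ∧ (∀ i j : I, ∃ k, i ≤ k ∧ j ≤ k) ∧ (∀ i, Function.Injective (m i)) ∧
    (∀ i j, i ≤ j → (∀ x, ∃ y, m j y = m i x) ∧ (∀ x, ∃ y, m j (a j y) = m i (a i x))) ∧
    (∀ x : M, ∃ i y, m i (a i y) = x) ∧ (∀ i y, m i (b i y) = α (m i (a i y))) ∧
    ∀ i, ∃ (X : Type) (_ : Group X) (g : X) (e : F i →* X), C X ∧
      Function.Injective e ∧ ∀ y, g * e (a i y) = e (b i y) * g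

/-- **Extensions whose elements of infinite order in the quotient act on the kernel, up to inner
automorphisms, by automorphisms that are locally induced by conjugations.** -/
theorem appr_kernel (hC : Closed C) (hE : ExtClosed C) {M G Q : Type} [Group M] [Group G]
    [Group Q] (f : G →* Q) (hf : Function.Surjective f) (hQ : C Q) (hM : C M) (ι : M →* G)
    (hι : Function.Injective ι) (hker : ι.range = f.ker)
    (h : ∀ g : G, ¬ IsOfFinOrder (f g) → ∃ (n : M) (α : M → M), Appr C α ∧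
      ∀ x, g * ι x * g⁻¹ = ι (n * α x * n⁻¹)) : C G := by
  refine dir_kernel hC hE f hf hQ ?_ ?_
  · rw [← hker]
    exact Pool.Agent.Y812.SS.C_equiv hC (MonoidHom.ofInjective hι).symm hM
  intro q hq
  obtain ⟨g, rfl⟩ := hf q
  obtain ⟨n, α, ⟨I, _, F, A, _, _, m, a, b, hne, hdir, hinj, hmono, hcov, hb, hext⟩, hg⟩ := h g hq
  have hn : f (ι n) = 1 := by
    have : ι n ∈ f.ker := by
      rw [← hker]
      exact ⟨n, rfl⟩
    exact this
  have hτ : ∀ x, ((ι n)⁻¹ * g) * ι x * ((ι n)⁻¹ * g)⁻¹ = ι (α x) := by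
    intro x
    have h1 : ((ι n)⁻¹ * g) * ι x * ((ι n)⁻¹ * g)⁻¹ = (ι n)⁻¹ * (g * ι x * g⁻¹) * ι n := by
      group
    rw [h1, hg, map_mul, map_mul, map_inv]
    group
  let pr : I → Pair ((ι n)⁻¹ * g) := fun i =>
    { A := ((ι.comp (m i)).comp (a i)).range
      F := (ι.comp (m i)).range
      hA := by
        rintro _ ⟨x, rfl⟩
        exact ⟨_, rfl⟩
      hB := by
        rintro _ ⟨x, rfl⟩
        refine ⟨b i x, ?_⟩
        change ι (m i (b i x)) = ((ι n)⁻¹ * g) * ι (m i (a i x)) * ((ι n)⁻¹ * g)⁻¹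
        rw [hτ, hb] }
  have hpr : ∀ i j, i ≤ j → pr i ≤ pr j := by
    intro i j hij
    constructor
    · rintro _ ⟨x, rfl⟩
      obtain ⟨y, hy⟩ := (hmono i j hij).2 x
      exact ⟨y, congrArg ι hy⟩
    · rintro _ ⟨x, rfl⟩
      obtain ⟨y, hy⟩ := (hmono i j hij).1 x
      exact ⟨y, congrArg ι hy⟩
  refine ⟨(ι n)⁻¹ * g, ?_, Set.range pr, ⟨?_, ?_, ?_, ?_⟩, ?_⟩
  · rw [map_mul, map_inv, hn, inv_one, one_mul]
  · obtain ⟨i⟩ := hne
    exact ⟨_, ⟨i, rfl⟩⟩
  · rintro _ ⟨i, rfl⟩ _ ⟨x, rfl⟩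
    rw [← hker]
    exact ⟨_, rfl⟩
  · rintro _ ⟨i, rfl⟩ _ ⟨j, rfl⟩
    obtain ⟨k, h1, h2⟩ := hdir i j
    exact ⟨_, ⟨k, rfl⟩, hpr _ _ h1, hpr _ _ h2⟩
  · intro x hx
    rw [← hker] at hx
    obtain ⟨z, rfl⟩ := hx
    obtain ⟨i, y, rfl⟩ := hcov z
    exact ⟨_, ⟨i, rfl⟩, y, rfl⟩
  · rintro _ ⟨i, rfl⟩
    obtain ⟨X, _, x, e, hX, he, heb⟩ := hext i
    refine Ext.of_inj (pr i) (Q := X) (ι.comp (m i))
      (hι.comp (hinj i)) rfl (a i) (b i) ?_ ?_ e he x heb hX
    · rintro _ ⟨x, rfl⟩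
      exact ⟨x, rfl⟩
    · intro x
      change ι (m i (b i x)) = ((ι n)⁻¹ * g) * ι (m i (a i x)) * ((ι n)⁻¹ * g)⁻¹
      rw [hτ, hb]

/-- **Semidirect products with automorphisms that are locally conjugations.** -/
theorem appr_sd (hC : Closed C) (hE : ExtClosed C) {M H : Type} [Group M] [Group H]
    (φ : H →* MulAut M) (hM : C M) (hH : C H)
    (h : ∀ q : H, ¬ IsOfFinOrder q → Appr C (φ q)) : C (M ⋊[φ] H) := by
  refine appr_kernel hC hE SemidirectProduct.rightHom SemidirectProduct.rightHom_surjective hH hM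
    SemidirectProduct.inl SemidirectProduct.inl_injective
    SemidirectProduct.range_inl_eq_ker_rightHom ?_
  intro g hg
  exact ⟨g.left, φ g.right, h g.right hg, fun x => sd_conj g x⟩

/-- the group itself is a directed union of subgroups of groups of the class -/
theorem Appr.mem (hC : Closed C) {M : Type} [Group M] {α : M → M} (h : Appr C α) : C M := by
  obtain ⟨I, _, F, A, _, _, m, a, b, hne, hdir, hinj, hmono, hcov, hb, hext⟩ := h
  refine Pool.Agent.Y430.SS.of_directed hC _ I hdir (fun i => (m i).range) ?_ ?_ ?_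
  · rintro i j hij _ ⟨x, rfl⟩
    obtain ⟨y, hy⟩ := (hmono i j hij).1 x
    exact ⟨y, hy⟩
  · intro g
    obtain ⟨i, y, rfl⟩ := hcov g
    exact ⟨i, _, rfl⟩
  · intro i
    obtain ⟨X, _, x, e, hX, he, heb⟩ := hext i
    exact Pool.Agent.Y812.SS.C_equiv hC (MonoidHom.ofInjective (hinj i)).symm
      (hC.of_injective _ _ e he hX)

end Pool.Agent.H106FJ
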