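import Pool.Agent.Q152.EM.Unr
import Pool.Agent.Y331.SP524.Limn

/-!
# Recursions over infinite alphabets
-/

set_option autoImplicit false
set_option linter.unusedSectionVars false
set_option linter.style.haveILetI false

namespace Pool.Agent.H106FJ

open Pool.Agent.Y462.SS Pool.Agent.Q152.WP Pool.Agent.Q152.EM Pool.Agent.Y331.SS
  Pool.Agent.Y331.SPL Pool.Agent.Y524S

variable {C : ∀ (G : Type) [Group G], Prop}

section limit

variable {X : Type} {G : ℕ → Type} [∀ n, Group (G n)] (ψ : ∀ n, G n →* Wr X (G (n + 1)))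

/-- the permutations of the letters -/
def prm (n : ℕ) : G n →* Equiv.Perm X where
  toFun γ := (ψ n γ).p
  map_one' := by rw [map_one]; rfl
  map_mul' a b := by rw [map_mul]; rfl

/-- the elements which fix all letters have only finitely many nontrivial sections -/
def FinSupp : Prop := ∀ n (γ : G n), (ψ n γ).p = 1 → {x | (ψ n γ).s x ≠ 1}.Finite

theorem diesF_iff (hs : FinSupp ψ) (n : ℕ) (γ : G n) :
    DiesN ψ n γ ↔ ∃ j, γ ∈ KN ψ j n := by
  constructor
  · intro h
    induction h with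
    | one n => exact ⟨0, one_mem _⟩
    | step n γ h1 _ ih =>
      choose m hm using ih
      obtain ⟨N, hN⟩ := ((hs n γ h1).image m).bddAbove
      refine ⟨N + 1, (mem_KN_succ ψ N n γ).2 ⟨h1, fun x => ?_⟩⟩
      by_cases hx : (ψ n γ).s x = 1
      · rw [hx]
        exact one_mem _
      · exact KN_mono ψ (n + 1) (hN (Set.mem_image_of_mem m hx)) (hm x)
  · rintro ⟨j, hj⟩
    induction j generalizing n γ with
    | zero =>
      rw [KN_zero, Subgroup.mem_bot] at hj
      rw [hj]
      exact DiesN.one n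
    | succ j ih =>
      rw [mem_KN_succ] at hj
      exact DiesN.step n γ hj.1 fun x => ih _ _ (hj.2 x)

theorem C_KNF (hC : Closed C) (hE : ExtClosed C) (hs : FinSupp ψ)
    (hp : ∀ n, C (prm ψ n).range) (hG : ∀ n, C (G n)) (j n : ℕ) :
    C (G n ⧸ KN ψ j n) := by
  induction j generalizing n with
  | zero =>
    refine hC.of_injective (G n ⧸ KN ψ 0 n) (G n)
      (QuotientGroup.lift (KN ψ 0 n) (MonoidHom.id (G n)) ?_) ?_ (hG n)
    · intro x hx
      rw [KN_zero, Subgroup.mem_bot] at hx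
      exact hx
    · rw [injective_iff_map_eq_one]
      intro a ha
      obtain ⟨y, rfl⟩ := QuotientGroup.mk_surjective a
      have h1 : y = 1 := ha
      rw [h1]
      rfl
  | succ j ih =>
    let q : (G n ⧸ (phiN (ψ n) (KN ψ j (n + 1))).ker) →* (prm ψ n).range :=
      QuotientGroup.lift _ (prm ψ n).rangeRestrict (by
        intro y hy
        rw [mem_ker_phiN] at hy
        exact Subtype.ext hy.1)
    refine unr (W := G n ⧸ (phiN (ψ n) (KN ψ j (n + 1))).ker) (Q := (prm ψ n).range)
      (QuotientGroup.kerLift (phiN (ψ n) (KN ψ j (n + 1)))) q ?_ hC hE (ih (n + 1))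
      (QuotientGroup.kerLift_injective _) ?_ (hp n)
    · intro a ha
      obtain ⟨y, rfl⟩ := QuotientGroup.mk_surjective a
      have h1 : (ψ n y).p = 1 := congrArg Subtype.val ha
      refine ⟨h1, (hs n y h1).subset ?_⟩
      intro x hx hx'
      apply hx
      change (((ψ n y).s x : G (n + 1)) : G (n + 1) ⧸ KN ψ j (n + 1)) = 1
      rw [hx']
      rfl
    · rintro ⟨_, y, rfl⟩
      exact ⟨QuotientGroup.mk y, rfl⟩

/-- **Limits of recursions over infinite alphabets.** -/
theorem limF (hC : Closed C) (hE : ExtClosed C) (hs : FinSupp ψ)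
    (hp : ∀ n, C (prm ψ n).range) (hG : ∀ n, C (G n)) (n : ℕ) (K : Subgroup (G n)) [K.Normal]
    (hK : ∀ γ, γ ∈ K ↔ DiesN ψ n γ) : C (G n ⧸ K) := by
  have hd := diesF_iff ψ hs n
  have hle : ∀ j, KN ψ j n ≤ K := fun j γ h => (hK γ).2 ((hd γ).2 ⟨j, h⟩)
  refine hC.colim ℕ (fun i j => ⟨max i j, le_max_left i j, le_max_right i j⟩)
    (fun j => G n ⧸ KN ψ j n)
    (fun i j h => QuotientGroup.map (KN ψ i n) (KN ψ j n) (MonoidHom.id (G n)) (KN_mono ψ n h))
    (G n ⧸ K) (fun i => QuotientGroup.map (KN ψ i n) K (MonoidHom.id (G n)) (hle i))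
    ?_ ?_ ?_ ?_ ?_ ?_
  · intro i h x
    obtain ⟨y, rfl⟩ := QuotientGroup.mk_surjective x
    rfl
  · intro i j k h h' x
    obtain ⟨y, rfl⟩ := QuotientGroup.mk_surjective x
    rfl
  · intro i j h x
    obtain ⟨y, rfl⟩ := QuotientGroup.mk_surjective x
    rfl
  · intro y
    obtain ⟨z, rfl⟩ := QuotientGroup.mk_surjective y
    exact ⟨0, QuotientGroup.mk z, rfl⟩
  · intro i x hx
    obtain ⟨y, rfl⟩ := QuotientGroup.mk_surjective x
    have h1 : ((y : G n) : G n ⧸ K) = 1 := hx
    have h2 : y ∈ K := (QuotientGroup.eq_one_iff _).1 h1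
    obtain ⟨m, hm⟩ := (hd y).1 ((hK y).1 h2)
    refine ⟨max i m, le_max_left i m, ?_⟩
    have h3 : y ∈ KN ψ (max i m) n := KN_mono ψ n (le_max_right i m) hm
    exact (QuotientGroup.eq_one_iff _).2 h3
  · intro j
    exact C_KNF ψ hC hE hs hp hG j n

/-- the action on the words -/
def actN : ∀ n, G n → List X → List X
  | _, _, [] => []
  | n, γ, x :: w => (ψ n γ).p x :: actN (n + 1) ((ψ n γ).s x) w

/-- The recursion brings the element into the sets `𝒩 n`: it is in `𝒩 n`, or all its sections have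
this property. -/
inductive ContN (𝒩 : ∀ n, Set (G n)) : ∀ n, G n → Prop
  | base (n : ℕ) (γ : G n) : γ ∈ 𝒩 n → ContN 𝒩 n γ
  | step (n : ℕ) (γ : G n) : (∀ x, ContN 𝒩 (n + 1) ((ψ n γ).s x)) → ContN 𝒩 n γ

theorem act_of_diesN (n : ℕ) (γ : G n) (h : DiesN ψ n γ) (w : List X) : actN ψ n γ w = w := by
  induction h generalizing w with
  | one n =>
    induction w generalizing n with
    | nil => rfl
    | cons x w ih =>
      change (ψ n 1).p x :: actN ψ (n + 1) ((ψ n 1).s x) w = _
      rw [map_one]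
      change x :: actN ψ (n + 1) 1 w = _
      rw [ih]
  | step n γ h1 _ ih =>
    cases w with
    | nil => rfl
    | cons x w =>
      change (ψ n γ).p x :: actN ψ (n + 1) ((ψ n γ).s x) w = _
      rw [ih x w, h1]
      rfl

/-- The only element of `𝒩 n` which acts trivially is `1`. -/
def FaithfulN (𝒩 : ∀ n, Set (G n)) : Prop :=
  ∀ n, ∀ γ ∈ 𝒩 n, (∀ w, actN ψ n γ w = w) → γ = 1

theorem dies_of_actN {𝒩 : ∀ n, Set (G n)} (hf : FaithfulN ψ 𝒩) (n : ℕ) (γ : G n)
    (h : ContN ψ 𝒩 n γ) : (∀ w, actN ψ n γ w = w) → DiesN ψ n γ := by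
  induction h with
  | base n γ h =>
    intro h2
    rw [hf n γ h h2]
    exact DiesN.one n
  | step n γ _ ih =>
    intro h2
    apply DiesN.step
    · ext x
      have h3 := h2 [x]
      have h4 : actN ψ n γ [x] = [(ψ n γ).p x] := rfl
      rw [h4] at h3
      exact (List.cons.inj h3).1
    · intro x
      apply ih
      intro w
      have h3 : (ψ n γ).p x :: actN ψ (n + 1) ((ψ n γ).s x) w = x :: w := h2 (x :: w)
      exact (List.cons.inj h3).2

/-- **Contracting recursions over infinite alphabets.** -/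
theorem contF (hC : Closed C) (hE : ExtClosed C) (hs : FinSupp ψ)
    (hp : ∀ n, C (prm ψ n).range) (hG : ∀ n, C (G n)) {𝒩 : ∀ n, Set (G n)}
    (hc : ∀ n γ, ContN ψ 𝒩 n γ) (hf : FaithfulN ψ 𝒩) {L : Type} [Group L] (π : G 0 →* L)
    (hπ : Function.Surjective π) (hk : ∀ γ, π γ = 1 ↔ ∀ w, actN ψ 0 γ w = w) : C L := by
  have h1 : C (G 0 ⧸ π.ker) := by
    apply limF ψ hC hE hs hp hG
    intro γ
    rw [MonoidHom.mem_ker, hk]
    constructor
    · intro h
      exact dies_of_actN ψ hf 0 γ (hc 0 γ) h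
    · intro h w
      exact act_of_diesN ψ 0 γ h w
  exact hC.of_injective L (G 0 ⧸ π.ker)
    (QuotientGroup.quotientKerEquivOfSurjective π hπ).symm.toMonoidHom
    (QuotientGroup.quotientKerEquivOfSurjective π hπ).symm.injective h1

end limit

section spinal

variable {X : Type}

/-- a permutation of the letters acts on the words by changing the first letter -/
def rt : Equiv.Perm X →* Equiv.Perm (List X) where
  toFun h :=
    { toFun := fun w => match w with
        | [] => []
        | y :: w => h y :: w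
      invFun := fun w => match w with
        | [] => []
        | y :: w => h.symm y :: w
      left_inv := fun w => by cases w <;> simp
      right_inv := fun w => by cases w <;> simp }
  map_one' := by
    ext1 w
    cases w <;> rfl
  map_mul' a b := by
    ext1 w
    cases w <;> rfl

theorem rt_cons (h : Equiv.Perm X) (y : X) (w : List X) : rt h (y :: w) = h y :: w := rfl

theorem rt_nil (h : Equiv.Perm X) : rt h [] = [] := rfl

theorem rt_injective : Function.Injective (rt (X := X)) := by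
  intro a b hab
  ext y
  have h1 : rt a [y] = rt b [y] := by rw [hab]
  rw [rt_cons, rt_cons] at h1
  exact (List.cons.inj h1).1

/-- Directed automorphisms over an arbitrary alphabet: the elements of `D n` fix the first letters; the
section at `d` is in `D (n + 1)`, the sections at the other letters are permutations of the next letter
which are in `H (n + 1)`, and only finitely many sections are nontrivial. -/
structure Spinal (d : X) (H : ℕ → Subgroup (Equiv.Perm X))
    (D : ℕ → Subgroup (Equiv.Perm (List X))) : Prop where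
  spine : ∀ n, ∀ b ∈ D n, ∃ c ∈ D (n + 1), ∀ w, b (d :: w) = d :: c w
  other : ∀ n, ∀ b ∈ D n, ∀ x, x ≠ d → ∃ h ∈ H (n + 1), ∀ w, b (x :: w) = x :: rt h w
  fin : ∀ n, ∀ b ∈ D n, {x | ∃ w, b (x :: w) ≠ x :: w}.Finite

namespace Spinal

variable {d : X} {H : ℕ → Subgroup (Equiv.Perm X)} {D : ℕ → Subgroup (Equiv.Perm (List X))}
  (h : Spinal d H D)

include h

/-- the section at the letter `d` -/
noncomputable def δ (n : ℕ) : D n →* D (n + 1) :=
  MonoidHom.mk' (fun b => ⟨(h.spine n b.1 b.2).choose, (h.spine n b.1 b.2).choose_spec.1⟩) (by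
    intro a b
    apply Subtype.ext
    ext1 w
    have h1 := (h.spine n (a * b).1 (a * b).2).choose_spec.2 w
    have h2 := (h.spine n b.1 b.2).choose_spec.2 w
    have h3 := (h.spine n a.1 a.2).choose_spec.2 ((h.spine n b.1 b.2).choose w)
    have h4 : (a * b).1 (d :: w) = a.1 (b.1 (d :: w)) := rfl
    rw [h4, h2, h3] at h1
    exact (List.cons.inj h1).2.symm)

theorem δ_spec (n : ℕ) (b : D n) (w : List X) : b.1 (d :: w) = d :: (h.δ n b).1 w :=
  (h.spine n b.1 b.2).choose_spec.2 w

/-- the section at the other letters -/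
noncomputable def ω (n : ℕ) (x : X) (hx : x ≠ d) : D n →* H (n + 1) :=
  MonoidHom.mk' (fun b => ⟨(h.other n b.1 b.2 x hx).choose, (h.other n b.1 b.2 x hx).choose_spec.1⟩)
    (by
    intro a b
    apply Subtype.ext
    apply rt_injective
    ext1 w
    have h1 := (h.other n (a * b).1 (a * b).2 x hx).choose_spec.2 w
    have h2 := (h.other n b.1 b.2 x hx).choose_spec.2 w
    have h3 := (h.other n a.1 a.2 x hx).choose_spec.2 (rt (h.other n b.1 b.2 x hx).choose w)
    have h4 : (a * b).1 (x :: w) = a.1 (b.1 (x :: w)) := rfl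
    rw [h4, h2, h3] at h1
    refine (List.cons.inj h1).2.symm.trans ?_
    change _ = rt (_ * _) w
    rw [map_mul]
    rfl)

theorem ω_spec (n : ℕ) (x : X) (hx : x ≠ d) (b : D n) (w : List X) :
    b.1 (x :: w) = x :: rt (h.ω n x hx b).1 w :=
  (h.other n b.1 b.2 x hx).choose_spec.2 w

theorem nil_eq (n : ℕ) (b : D n) : b.1 [] = [] := by
  classical
  cases h0 : b.1 [] with
  | nil => rfl
  | cons x w =>
    exfalso
    by_cases hx : x = d
    · subst hx
      have h1 := h.δ_spec n b ((h.δ n b).1.symm w)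
      rw [Equiv.apply_symm_apply, ← h0] at h1
      exact absurd (b.1.injective h1) (by simp)
    · have h1 := h.ω_spec n x hx b ((rt (h.ω n x hx b).1).symm w)
      rw [Equiv.apply_symm_apply, ← h0] at h1
      exact absurd (b.1.injective h1) (by simp)

omit h in
/-- the free products -/
abbrev Gm (H : ℕ → Subgroup (Equiv.Perm X)) (D : ℕ → Subgroup (Equiv.Perm (List X))) (n : ℕ) :
    Type := Monoid.Coprod (H n) (D n)

open Classical in
/-- the sections of the directed automorphisms in the free product -/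
noncomputable def sD (n : ℕ) (x : X) : D n →* Gm H D (n + 1) :=
  if hx : x = d then (Monoid.Coprod.inr).comp (h.δ n)
  else (Monoid.Coprod.inl).comp (h.ω n x hx)

theorem sD_d (n : ℕ) (b : D n) : h.sD n d b = Monoid.Coprod.inr (h.δ n b) := by
  unfold sD
  rw [dif_pos rfl]
  rfl

theorem sD_ne (n : ℕ) {x : X} (hx : x ≠ d) (b : D n) :
    h.sD n x b = Monoid.Coprod.inl (h.ω n x hx b) := by
  unfold sD
  rw [dif_neg hx]
  rfl

/-- the recursion -/
noncomputable def ψ (n : ℕ) : Gm H D n →* Wr X (Gm H D (n + 1)) :=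
  Monoid.Coprod.lift
    { toFun := fun a => ⟨fun _ => 1, a.1⟩
      map_one' := rfl
      map_mul' := fun a b => by
        refine Wr.ext ?_ rfl
        funext x
        exact (one_mul 1).symm }
    { toFun := fun b => ⟨fun x => h.sD n x b, 1⟩
      map_one' := by
        refine Wr.ext ?_ rfl
        funext x
        exact map_one _
      map_mul' := fun a b => by
        refine Wr.ext ?_ (one_mul 1).symm
        funext x
        exact map_mul _ _ _ }

theorem ψ_inl (n : ℕ) (a : H n) : h.ψ n (Monoid.Coprod.inl a) = ⟨fun _ => 1, a.1⟩ := by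
  unfold ψ
  rw [Monoid.Coprod.lift_apply_inl]
  rfl

theorem ψ_inr (n : ℕ) (b : D n) : h.ψ n (Monoid.Coprod.inr b) = ⟨fun x => h.sD n x b, 1⟩ := by
  unfold ψ
  rw [Monoid.Coprod.lift_apply_inr]
  rfl

omit h in
/-- the action on the words -/
noncomputable def ev (H : ℕ → Subgroup (Equiv.Perm X)) (D : ℕ → Subgroup (Equiv.Perm (List X)))
    (n : ℕ) : Gm H D n →* Equiv.Perm (List X) :=
  Monoid.Coprod.lift (rt.comp (H n).subtype) (D n).subtype

omit h in
theorem ev_inl (n : ℕ) (a : H n) : ev H D n (Monoid.Coprod.inl a) = rt a.1 := by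
  unfold ev
  rw [Monoid.Coprod.lift_apply_inl]
  rfl

omit h in
theorem ev_inr (n : ℕ) (b : D n) : ev H D n (Monoid.Coprod.inr b) = b.1 := by
  unfold ev
  rw [Monoid.Coprod.lift_apply_inr]
  rfl

theorem ev_nil (n : ℕ) (γ : Gm H D n) : ev H D n γ [] = [] := by
  induction γ using Monoid.Coprod.induction_on with
  | inl a => rw [ev_inl, rt_nil]
  | inr b => rw [ev_inr, h.nil_eq]
  | mul a b ha hb =>
    rw [map_mul]
    change ev H D n a (ev H D n b []) = []
    rw [hb, ha]

theorem ev_cons (n : ℕ) (γ : Gm H D n) : ∀ (x : X) (w : List X),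
    ev H D n γ (x :: w) = (h.ψ n γ).p x :: ev H D (n + 1) ((h.ψ n γ).s x) w := by
  induction γ using Monoid.Coprod.induction_on with
  | inl a =>
    intro x w
    rw [ev_inl, h.ψ_inl, rt_cons]
    change a.1 x :: w = a.1 x :: ev H D (n + 1) 1 w
    rw [map_one]
    rfl
  | inr b =>
    intro x w
    rw [ev_inr, h.ψ_inr]
    change b.1 (x :: w) = x :: ev H D (n + 1) (h.sD n x b) w
    by_cases hx : x = d
    · subst hx
      rw [h.sD_d, ev_inr, h.δ_spec]
    · rw [h.sD_ne n hx, ev_inl, h.ω_spec n x hx]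
  | mul a b ha hb =>
    intro x w
    rw [map_mul, map_mul]
    change ev H D n a (ev H D n b (x :: w)) = (h.ψ n a).p ((h.ψ n b).p x) ::
      ev H D (n + 1) ((h.ψ n a).s ((h.ψ n b).p x) * (h.ψ n b).s x) w
    rw [hb, ha, map_mul]
    rfl

theorem act_eq (w : List X) : ∀ (n : ℕ) (γ : Gm H D n), actN h.ψ n γ w = ev H D n γ w := by
  induction w with
  | nil =>
    intro n γ
    rw [h.ev_nil]
    rfl
  | cons x w ih =>
    intro n γ
    rw [h.ev_cons]
    change (h.ψ n γ).p x :: actN h.ψ (n + 1) ((h.ψ n γ).s x) w = _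
    rw [ih]

theorem finSupp_all (n : ℕ) (γ : Gm H D n) : {x | (h.ψ n γ).s x ≠ 1}.Finite := by
  induction γ using Monoid.Coprod.induction_on with
  | inl a =>
    rw [h.ψ_inl]
    have : {x : X | ((⟨fun _ => 1, a.1⟩ : Wr X (Gm H D (n + 1))).s x) ≠ 1} = ∅ := by
      ext x
      simp
    rw [this]
    exact Set.finite_empty
  | inr b =>
    rw [h.ψ_inr]
    refine ((h.fin n b.1 b.2).union (Set.finite_singleton d)).subset ?_
    intro x hx
    by_cases hxd : x = d
    · exact Or.inr hxd
    · left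
      by_contra hc
      apply hx
      change h.sD n x b = 1
      rw [h.sD_ne n hxd]
      have h1 : h.ω n x hxd b = 1 := by
        apply Subtype.ext
        apply rt_injective
        ext1 w
        have h2 := h.ω_spec n x hxd b w
        have h3 : b.1 (x :: w) = x :: w := by
          by_contra h4
          exact hc ⟨w, h4⟩
        rw [h3] at h2
        have h5 : rt (1 : Equiv.Perm X) w = w := by
          rw [map_one]
          rfl
        exact (List.cons.inj h2).2.symm.trans h5.symm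
      rw [h1, map_one]
  | mul a b ha hb =>
    refine ((ha.preimage (h.ψ n b).p.injective.injOn).union hb).subset ?_
    intro x hx
    by_contra hc
    rw [Set.mem_union, not_or] at hc
    apply hx
    rw [map_mul, Wr.mul_s]
    have h1 : (h.ψ n a).s ((h.ψ n b).p x) = 1 := by
      by_contra h4
      exact hc.1 h4
    have h2 : (h.ψ n b).s x = 1 := by
      by_contra h4
      exact hc.2 h4
    rw [h1, h2, one_mul]

theorem prm_mem (n : ℕ) (γ : Gm H D n) : (h.ψ n γ).p ∈ H n := by
  induction γ using Monoid.Coprod.induction_on with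
  | inl a =>
    rw [h.ψ_inl]
    exact a.2
  | inr b =>
    rw [h.ψ_inr]
    exact one_mem _
  | mul a b ha hb =>
    rw [map_mul]
    exact mul_mem ha hb

omit h in
/-- the elements with at most `m` syllables from `D` -/
def W (H : ℕ → Subgroup (Equiv.Perm X)) (D : ℕ → Subgroup (Equiv.Perm (List X))) (n : ℕ) :
    ℕ → Set (Gm H D n)
  | 0 => Set.range Monoid.Coprod.inl
  | m + 1 => {γ | ∃ (a : H n) (b : D n), ∃ δ ∈ W H D n m,
      γ = Monoid.Coprod.inl a * Monoid.Coprod.inr b * δ}

omit h in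
theorem inl_mul {n m : ℕ} (a : H n) {γ : Gm H D n} (hγ : γ ∈ W H D n m) :
    Monoid.Coprod.inl a * γ ∈ W H D n m := by
  cases m with
  | zero =>
    obtain ⟨a', rfl⟩ := hγ
    exact ⟨a * a', map_mul _ _ _⟩
  | succ m =>
    obtain ⟨a', b, δ, hδ, rfl⟩ := hγ
    exact ⟨a * a', b, δ, hδ, by rw [map_mul]; simp only [mul_assoc]⟩

omit h in
theorem inr_mul {n m : ℕ} (b : D n) {γ : Gm H D n} (hγ : γ ∈ W H D n m) :
    Monoid.Coprod.inr b * γ ∈ W H D n (m + 1) :=
  ⟨1, b, γ, hγ, by rw [map_one, one_mul]⟩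

omit h in
theorem W_succ {n m : ℕ} {γ : Gm H D n} (hγ : γ ∈ W H D n m) : γ ∈ W H D n (m + 1) :=
  ⟨1, 1, γ, hγ, by rw [map_one, map_one, one_mul, one_mul]⟩

omit h in
theorem one_mem_W (n : ℕ) : (1 : Gm H D n) ∈ W H D n 0 := ⟨1, map_one _⟩

omit h in
theorem W_one_le {n : ℕ} (m : ℕ) {γ : Gm H D n} (hγ : γ ∈ W H D n 1) : γ ∈ W H D n (m + 1) := by
  induction m with
  | zero => exact hγ
  | succ m ih => exact W_succ ih

omit h in
theorem W_mul {n m k : ℕ} {γ δ : Gm H D n} (hγ : γ ∈ W H D n m) (hδ : δ ∈ W H D n k) :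
    γ * δ ∈ W H D n (m + k) := by
  induction m generalizing γ with
  | zero =>
    obtain ⟨a, rfl⟩ := hγ
    rw [zero_add]
    exact inl_mul a hδ
  | succ m ih =>
    obtain ⟨a, b, γ', hγ', rfl⟩ := hγ
    have : m + 1 + k = (m + k) + 1 := by ring
    rw [this]
    exact ⟨a, b, γ' * δ, ih hγ', by rw [mul_assoc]⟩

omit h in
theorem exists_W {n : ℕ} (γ : Gm H D n) : ∃ m, γ ∈ W H D n m := by
  induction γ using Monoid.Coprod.induction_on with
  | inl a => exact ⟨0, a, rfl⟩
  | inr b => exact ⟨1, 1, b, 1, one_mem_W n, by rw [map_one, one_mul, mul_one]⟩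
  | mul a b ha hb =>
    obtain ⟨m, hm⟩ := ha
    obtain ⟨k, hk⟩ := hb
    exact ⟨m + k, W_mul hm hk⟩

theorem sec_W0 {n : ℕ} {γ : Gm H D n} (hγ : γ ∈ W H D n 0) (x : X) : (h.ψ n γ).s x = 1 := by
  obtain ⟨a, rfl⟩ := hγ
  rw [h.ψ_inl]

theorem sec_step {n : ℕ} (a : H n) (b : D n) (δ : Gm H D n) (x : X) :
    (h.ψ n (Monoid.Coprod.inl a * Monoid.Coprod.inr b * δ)).s x =
      h.sD n ((h.ψ n δ).p x) b * (h.ψ n δ).s x := by
  rw [map_mul, map_mul, h.ψ_inl, h.ψ_inr, Wr.mul_s, Wr.mul_s]
  change 1 * h.sD n ((h.ψ n δ).p x) b * (h.ψ n δ).s x = _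
  rw [one_mul]

theorem sec_W (m : ℕ) : ∀ {n : ℕ} {γ : Gm H D n}, γ ∈ W H D n (m + 1) → ∀ x : X,
    (h.ψ n γ).s x ∈ Set.range (Monoid.Coprod.inr : D (n + 1) →* Gm H D (n + 1)) ∨
      (h.ψ n γ).s x ∈ W H D (n + 1) m := by
  induction m with
  | zero =>
    rintro n _ ⟨a, b, δ, hδ, rfl⟩ x
    rw [h.sec_step, h.sec_W0 hδ, mul_one]
    by_cases hx : (h.ψ n δ).p x = d
    · rw [hx, h.sD_d]
      exact Or.inl ⟨_, rfl⟩
    · rw [h.sD_ne n hx]
      exact Or.inr ⟨_, rfl⟩
  | succ m ih =>
    rintro n _ ⟨a, b, δ, hδ, rfl⟩ x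
    rw [h.sec_step]
    by_cases hx : (h.ψ n δ).p x = d
    · rw [hx, h.sD_d]
      rcases ih hδ x with ⟨b', hb'⟩ | h1
      · left
        rw [← hb']
        exact ⟨_, map_mul _ _ _⟩
      · right
        exact inr_mul _ h1
    · rw [h.sD_ne n hx]
      right
      rcases ih hδ x with ⟨b', hb'⟩ | h1
      · rw [← hb']
        exact W_one_le m ⟨h.ω n _ hx b, b', 1, one_mem_W _, (mul_one _).symm⟩
      · exact W_succ (inl_mul _ h1)

omit h in
/-- the two factors -/
def Nuc (H : ℕ → Subgroup (Equiv.Perm X)) (D : ℕ → Subgroup (Equiv.Perm (List X))) (n : ℕ) :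
    Set (Gm H D n) := Set.range Monoid.Coprod.inl ∪ Set.range Monoid.Coprod.inr

theorem cont (m : ℕ) : ∀ {n : ℕ} {γ : Gm H D n}, γ ∈ W H D n m →
    ContN h.ψ (Nuc H D) n γ := by
  induction m with
  | zero =>
    intro n γ hγ
    exact ContN.base n γ (Or.inl hγ)
  | succ m ih =>
    intro n γ hγ
    refine ContN.step n γ (fun x => ?_)
    rcases h.sec_W m hγ x with h1 | h1
    · exact ContN.base _ _ (Or.inr h1)
    · exact ih h1

theorem faithful : FaithfulN h.ψ (Nuc H D) := by
  intro n γ hγ hact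
  rcases hγ with ⟨a, rfl⟩ | ⟨b, rfl⟩
  · have h1 : a = 1 := by
      apply Subtype.ext
      apply rt_injective
      ext1 w
      have h2 := hact w
      rw [h.act_eq, ev_inl] at h2
      rw [h2]
      change w = rt 1 w
      rw [map_one]
      rfl
    rw [h1, map_one]
  · have h1 : b = 1 := by
      apply Subtype.ext
      ext1 w
      have h2 := hact w
      rw [h.act_eq, ev_inr] at h2
      rw [h2]
      rfl
    rw [h1, map_one]

/-- **Spinal groups over infinite alphabets.** -/
theorem mem (hC : Closed C) (hE : ExtClosed C) (hH : ∀ n, C (H n)) (hD : ∀ n, C (D n))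
    (G : Type) [Group G] (f : G →* Equiv.Perm (List X)) (hf : Function.Injective f)
    (S : Set G) (hS : Subgroup.closure S = ⊤)
    (hg : ∀ s ∈ S, f s ∈ D 0 ∨ ∃ a ∈ H 0, f s = rt a) : C G := by
  have h0 : C (ev H D 0).range := by
    refine contF h.ψ hC hE (fun n γ _ => h.finSupp_all n γ) ?_ ?_ (𝒩 := Nuc H D) ?_ h.faithful
      (ev H D 0).rangeRestrict (ev H D 0).rangeRestrict_surjective ?_
    · intro n
      refine hC.of_injective _ (H n) (Subgroup.inclusion ?_) (Subgroup.inclusion_injective _) (hH n)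
      rintro _ ⟨γ, rfl⟩
      exact h.prm_mem n γ
    · intro n
      exact hC.coprod _ _ (hH n) (hD n)
    · intro n γ
      obtain ⟨m, hm⟩ := exists_W γ
      exact h.cont m hm
    · intro γ
      constructor
      · intro h1 w
        have h2 : ev H D 0 γ = 1 := congrArg Subtype.val h1
        rw [h.act_eq, h2]
        rfl
      · intro h1
        apply Subtype.ext
        ext1 w
        have h2 := h1 w
        rw [h.act_eq] at h2
        exact h2
  have h1 : ∀ g, f g ∈ (ev H D 0).range := by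
    have h2 : Subgroup.closure S ≤ ((ev H D 0).range).comap f := by
      rw [Subgroup.closure_le]
      intro s hs
      rcases hg s hs with h3 | ⟨a, ha, h3⟩
      · exact ⟨Monoid.Coprod.inr ⟨f s, h3⟩, ev_inr 0 _⟩
      · refine ⟨Monoid.Coprod.inl ⟨a, ha⟩, ?_⟩
        rw [ev_inl]
        exact h3.symm
    intro g
    have h3 : g ∈ Subgroup.closure S := by rw [hS]; exact Subgroup.mem_top g
    exact h2 h3
  refine hC.of_injective _ _ (f.codRestrict _ h1) ?_ h0
  intro a b hab
  exact hf (congrArg Subtype.val hab)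

end Spinal

end spinal

end Pool.Agent.H106FJ
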