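import Pool.Agent.H106FJ.Inf
import Pool.Agent.Q152.EM.Fv

/-!
# Recursions over infinite alphabets with finitely many different sections
-/

set_option autoImplicit false
set_option linter.unusedSectionVars false
set_option linter.style.haveILetI false

namespace Pool.Agent.H106FJ

open Pool.Agent.Y462.SS Pool.Agent.Q152.WP Pool.Agent.Q152.EM Pool.Agent.Y331.SS
  Pool.Agent.Y331.SPL Pool.Agent.Y524S

variable {C : ∀ (G : Type) [Group G], Prop}

section limit

variable {X : Type} {G : ℕ → Type} [∀ n, Group (G n)] (ψ : ∀ n, G n →* Wr X (G (n + 1)))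

/-- all elements have only finitely many different sections at the letters -/
def FinVal : Prop := ∀ n (γ : G n), (Set.range (ψ n γ).s).Finite

theorem diesV_iff (hs : FinVal ψ) (n : ℕ) (γ : G n) :
    DiesN ψ n γ ↔ ∃ j, γ ∈ KN ψ j n := by
  constructor
  · intro h
    induction h with
    | one n => exact ⟨0, one_mem _⟩
    | step n γ h1 _ ih =>
      have ih' : ∀ δ ∈ Set.range (ψ n γ).s, ∃ j, δ ∈ KN ψ j (n + 1) := by
        rintro _ ⟨x, rfl⟩
        exact ih x
      choose! m hm using ih'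
      obtain ⟨N, hN⟩ := ((hs n γ).image m).bddAbove
      refine ⟨N + 1, (mem_KN_succ ψ N n γ).2 ⟨h1, fun x => ?_⟩⟩
      exact KN_mono ψ (n + 1) (hN (Set.mem_image_of_mem m ⟨x, rfl⟩)) (hm _ ⟨x, rfl⟩)
  · rintro ⟨j, hj⟩
    induction j generalizing n γ with
    | zero =>
      rw [KN_zero, Subgroup.mem_bot] at hj
      rw [hj]
      exact DiesN.one n
    | succ j ih =>
      rw [mem_KN_succ] at hj
      exact DiesN.step n γ hj.1 fun x => ih _ _ (hj.2 x)

theorem C_KNV (hC : Closed C) (hE : ExtClosed C) (hs : FinVal ψ)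
    (hp : ∀ n, C (prm ψ n).range) (hG : ∀ n, C (G n)) (j n : ℕ) :
    C (G n ⧸ KN ψ j n) := by
  induction j generalizing n with
  | zero =>
    refine hC.of_injective (G n ⧸ KN ψ 0 n) (G n)
      (QuotientGroup.lift (KN ψ 0 n) (MonoidHom.id (G n)) ?_) ?_ (hG n)
    · intro x hx
      rw [KN_zero, Subgroup.mem_bot] at hx
      exact hx
    · rw [injective_iff_map_eq_one]
      intro a ha
      obtain ⟨y, rfl⟩ := QuotientGroup.mk_surjective a
      have h1 : y = 1 := ha
      rw [h1]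
      rfl
  | succ j ih =>
    let q : (G n ⧸ (phiN (ψ n) (KN ψ j (n + 1))).ker) →* (prm ψ n).range :=
      QuotientGroup.lift _ (prm ψ n).rangeRestrict (by
        intro y hy
        rw [mem_ker_phiN] at hy
        exact Subtype.ext hy.1)
    refine fvr (W := G n ⧸ (phiN (ψ n) (KN ψ j (n + 1))).ker) (Q := (prm ψ n).range)
      (QuotientGroup.kerLift (phiN (ψ n) (KN ψ j (n + 1)))) q ?_ ?_ ?_ hC hE (ih (n + 1))
      ?_ (hp n)
    · intro a ha
      obtain ⟨y, rfl⟩ := QuotientGroup.mk_surjective a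
      exact congrArg Subtype.val ha
    · intro a
      obtain ⟨y, rfl⟩ := QuotientGroup.mk_surjective a
      refine ((hs n y).image (QuotientGroup.mk' (KN ψ j (n + 1)))).subset ?_
      rintro _ ⟨x, rfl⟩
      exact ⟨_, ⟨x, rfl⟩, rfl⟩
    · intro a _ ha
      exact (injective_iff_map_eq_one _).1
        (QuotientGroup.kerLift_injective (phiN (ψ n) (KN ψ j (n + 1)))) a ha
    · rintro ⟨_, y, rfl⟩
      exact ⟨QuotientGroup.mk y, rfl⟩

/-- **Limits of recursions with finitely many sections.** -/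
theorem limFV (hC : Closed C) (hE : ExtClosed C) (hs : FinVal ψ)
    (hp : ∀ n, C (prm ψ n).range) (hG : ∀ n, C (G n)) (n : ℕ) (K : Subgroup (G n)) [K.Normal]
    (hK : ∀ γ, γ ∈ K ↔ DiesN ψ n γ) : C (G n ⧸ K) := by
  have hd := diesV_iff ψ hs n
  have hle : ∀ j, KN ψ j n ≤ K := fun j γ h => (hK γ).2 ((hd γ).2 ⟨j, h⟩)
  refine hC.colim ℕ (fun i j => ⟨max i j, le_max_left i j, le_max_right i j⟩)
    (fun j => G n ⧸ KN ψ j n)
    (fun i j h => QuotientGroup.map (KN ψ i n) (KN ψ j n) (MonoidHom.id (G n)) (KN_mono ψ n h))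
    (G n ⧸ K) (fun i => QuotientGroup.map (KN ψ i n) K (MonoidHom.id (G n)) (hle i))
    ?_ ?_ ?_ ?_ ?_ ?_
  · intro i h x
    obtain ⟨y, rfl⟩ := QuotientGroup.mk_surjective x
    rfl
  · intro i j k h h' x
    obtain ⟨y, rfl⟩ := QuotientGroup.mk_surjective x
    rfl
  · intro i j h x
    obtain ⟨y, rfl⟩ := QuotientGroup.mk_surjective x
    rfl
  · intro y
    obtain ⟨z, rfl⟩ := QuotientGroup.mk_surjective y
    exact ⟨0, QuotientGroup.mk z, rfl⟩
  · intro i x hx
    obtain ⟨y, rfl⟩ := QuotientGroup.mk_surjective x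
    have h1 : ((y : G n) : G n ⧸ K) = 1 := hx
    have h2 : y ∈ K := (QuotientGroup.eq_one_iff _).1 h1
    obtain ⟨m, hm⟩ := (hd y).1 ((hK y).1 h2)
    refine ⟨max i m, le_max_left i m, ?_⟩
    have h3 : y ∈ KN ψ (max i m) n := KN_mono ψ n (le_max_right i m) hm
    exact (QuotientGroup.eq_one_iff _).2 h3
  · intro j
    exact C_KNV ψ hC hE hs hp hG j n

/-- **Contracting recursions with finitely many sections.** -/
theorem contFV (hC : Closed C) (hE : ExtClosed C) (hs : FinVal ψ)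
    (hp : ∀ n, C (prm ψ n).range) (hG : ∀ n, C (G n)) {𝒩 : ∀ n, Set (G n)}
    (hc : ∀ n γ, ContN ψ 𝒩 n γ) (hf : FaithfulN ψ 𝒩) {L : Type} [Group L] (π : G 0 →* L)
    (hπ : Function.Surjective π) (hk : ∀ γ, π γ = 1 ↔ ∀ w, actN ψ 0 γ w = w) : C L := by
  have h1 : C (G 0 ⧸ π.ker) := by
    apply limFV ψ hC hE hs hp hG
    intro γ
    rw [MonoidHom.mem_ker, hk]
    constructor
    · intro h
      exact dies_of_actN ψ hf 0 γ (hc 0 γ) h
    · intro h w
      exact act_of_diesN ψ 0 γ h w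
  exact hC.of_injective L (G 0 ⧸ π.ker)
    (QuotientGroup.quotientKerEquivOfSurjective π hπ).symm.toMonoidHom
    (QuotientGroup.quotientKerEquivOfSurjective π hπ).symm.injective h1

end limit

section cover

variable {X G Γ : Type} [Group G] [Group Γ]

/-- The recursion brings the element into the set `𝒩`: it is in `𝒩`, or all its sections have this
property. -/
inductive ContS (ψ : Γ →* Wr X Γ) (𝒩 : Set Γ) : Γ → Prop
  | base (γ : Γ) : γ ∈ 𝒩 → ContS ψ 𝒩 γ
  | step (γ : Γ) : (∀ x, ContS ψ 𝒩 ((ψ γ).s x)) → ContS ψ 𝒩 γ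

/-- `𝒩` is a nucleus of the self-similar group `G`: it generates `G`, is symmetric, contains `1` and
the sections of its elements, each of its elements has only finitely many different sections, and the
recursion brings the products of two elements into `𝒩`. -/
structure IsNucleusV (ψ : G →* Wr X G) (𝒩 : Set G) : Prop where
  gen : Subgroup.closure 𝒩 = ⊤
  one : (1 : G) ∈ 𝒩
  inv : ∀ a ∈ 𝒩, a⁻¹ ∈ 𝒩
  sections : ∀ a ∈ 𝒩, ∀ x : X, (ψ a).s x ∈ 𝒩
  finval : ∀ a ∈ 𝒩, (Set.range (ψ a).s).Finite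
  mul : ∀ a ∈ 𝒩, ∀ b ∈ 𝒩, ContS ψ 𝒩 (a * b)

/-- the relations `a b = c` between elements of `𝒩` -/
def relsV (𝒩 : Set G) : Set (FreeGroup 𝒩) :=
  {r | ∃ a b c : 𝒩, (a : G) * b = c ∧ r = FreeGroup.of a * FreeGroup.of b * (FreeGroup.of c)⁻¹}

/-- the universal cover: generators `𝒩`, relations `a b = c` -/
abbrev CoverV (𝒩 : Set G) : Type := PresentedGroup (relsV 𝒩)

variable {𝒩 : Set G}

theorem of_mulV (a b c : 𝒩) (h : (a : G) * b = c) :
    (PresentedGroup.of a * PresentedGroup.of b : CoverV 𝒩) = PresentedGroup.of c := by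
  have h1 : (PresentedGroup.mk (relsV 𝒩) (FreeGroup.of a * FreeGroup.of b * (FreeGroup.of c)⁻¹)) =
      1 := PresentedGroup.one_of_mem ⟨a, b, c, h, rfl⟩
  rw [map_mul, map_mul, map_inv, mul_inv_eq_one] at h1
  exact h1

/-- the recursion on the cover, on generators -/
def FV' (ψ : G →* Wr X G) (h : IsNucleusV ψ 𝒩) (a : 𝒩) : Wr X (CoverV 𝒩) :=
  ⟨fun x => PresentedGroup.of ⟨(ψ a).s x, h.sections a.1 a.2 x⟩, (ψ a).p⟩

theorem FV'_mul (ψ : G →* Wr X G) (h : IsNucleusV ψ 𝒩) (a b c : 𝒩) (habc : (a : G) * b = c) :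
    FV' ψ h a * FV' ψ h b = FV' ψ h c := by
  apply Wr.ext
  · funext x
    change (PresentedGroup.of ⟨(ψ a).s ((ψ b).p x), _⟩ * PresentedGroup.of ⟨(ψ b).s x, _⟩ :
      CoverV 𝒩) = PresentedGroup.of ⟨(ψ c).s x, _⟩
    apply of_mulV
    change (ψ a).s ((ψ b).p x) * (ψ b).s x = (ψ c).s x
    rw [← habc, map_mul, Wr.mul_s]
  · change (ψ a).p * (ψ b).p = (ψ c).p
    rw [← habc, map_mul, Wr.mul_p]

/-- the recursion on the cover -/
noncomputable def liftV (ψ : G →* Wr X G) (h : IsNucleusV ψ 𝒩) : CoverV 𝒩 →* Wr X (CoverV 𝒩) :=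
  PresentedGroup.toGroup (f := FV' ψ h) (by
    rintro r ⟨a, b, c, habc, rfl⟩
    rw [map_mul, map_mul, map_inv, FreeGroup.lift_apply_of, FreeGroup.lift_apply_of,
      FreeGroup.lift_apply_of, FV'_mul ψ h a b c habc, mul_inv_cancel])

theorem liftV_of (ψ : G →* Wr X G) (h : IsNucleusV ψ 𝒩) (a : 𝒩) :
    liftV ψ h (PresentedGroup.of a) = FV' ψ h a := PresentedGroup.toGroup.of _

/-- the projection -/
noncomputable def projV (𝒩 : Set G) : CoverV 𝒩 →* G :=
  PresentedGroup.toGroup (f := fun a : 𝒩 => (a : G)) (by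
    rintro r ⟨a, b, c, habc, rfl⟩
    rw [map_mul, map_mul, map_inv, FreeGroup.lift_apply_of, FreeGroup.lift_apply_of,
      FreeGroup.lift_apply_of, habc, mul_inv_cancel])

theorem projV_of (a : 𝒩) : projV 𝒩 (PresentedGroup.of a) = a := PresentedGroup.toGroup.of _

theorem projV_surjective (ψ : G →* Wr X G) (h : IsNucleusV ψ 𝒩) :
    Function.Surjective (projV 𝒩) := by
  rw [← MonoidHom.range_eq_top, eq_top_iff, ← h.gen, Subgroup.closure_le]
  intro a ha
  exact ⟨PresentedGroup.of ⟨a, ha⟩, projV_of _⟩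

theorem wmap_liftV (ψ : G →* Wr X G) (h : IsNucleusV ψ 𝒩) (γ : CoverV 𝒩) :
    wmap (projV 𝒩) (liftV ψ h γ) = ψ (projV 𝒩 γ) := by
  have h1 : (wmap (projV 𝒩)).comp (liftV ψ h) = ψ.comp (projV 𝒩) := by
    apply PresentedGroup.ext
    intro a
    change wmap (projV 𝒩) (liftV ψ h (PresentedGroup.of a)) = ψ (projV 𝒩 (PresentedGroup.of a))
    rw [liftV_of, projV_of]
    apply Wr.ext
    · funext x
      change projV 𝒩 (PresentedGroup.of ⟨(ψ a).s x, _⟩) = _
      rw [projV_of]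
    · rfl
  exact DFunLike.congr_fun h1 γ

theorem actN_liftV (ψ : G →* Wr X G) (h : IsNucleusV ψ 𝒩) (w : List X) :
    ∀ (n : ℕ) (γ : CoverV 𝒩),
      actN (G := fun _ => CoverV 𝒩) (fun _ => liftV ψ h) n γ w = act ψ (projV 𝒩 γ) w := by
  induction w with
  | nil => intro n γ; rfl
  | cons x w ih =>
    intro n γ
    change (liftV ψ h γ).p x ::
      actN (G := fun _ => CoverV 𝒩) (fun _ => liftV ψ h) (n + 1) ((liftV ψ h γ).s x) w =
      (ψ (projV 𝒩 γ)).p x :: act ψ ((ψ (projV 𝒩 γ)).s x) w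
    rw [ih, ← wmap_liftV ψ h γ, wmap_p, wmap_s]

theorem of_oneV (h1 : (1 : G) ∈ 𝒩) : (PresentedGroup.of ⟨1, h1⟩ : CoverV 𝒩) = 1 := by
  have h2 := of_mulV (⟨1, h1⟩ : 𝒩) ⟨1, h1⟩ ⟨1, h1⟩ (one_mul 1)
  exact mul_eq_left.1 h2

theorem of_invV (ψ : G →* Wr X G) (h : IsNucleusV ψ 𝒩) (a : 𝒩) :
    (PresentedGroup.of a : CoverV 𝒩)⁻¹ = PresentedGroup.of ⟨(a : G)⁻¹, h.inv a.1 a.2⟩ := by
  apply inv_eq_of_mul_eq_one_right
  have h2 := of_mulV a ⟨(a : G)⁻¹, h.inv a.1 a.2⟩ ⟨1, h.one⟩ (mul_inv_cancel _)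
  rw [of_oneV] at h2
  exact h2

/-- induction on the cover -/
theorem coverV_induction (ψ : G →* Wr X G) (h : IsNucleusV ψ 𝒩) {P : CoverV 𝒩 → Prop}
    (hof : ∀ a : 𝒩, P (PresentedGroup.of a)) (hmul : ∀ x y, P x → P y → P (x * y))
    (γ : CoverV 𝒩) : P γ := by
  obtain ⟨w, rfl⟩ := PresentedGroup.mk_surjective _ γ
  induction w using FreeGroup.induction_on with
  | C1 =>
    rw [map_one, ← of_oneV h.one]
    exact hof _
  | of a => exact hof a
  | inv_of a _ =>
    have h1 : (PresentedGroup.mk (relsV 𝒩) (FreeGroup.of a)⁻¹) =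
        PresentedGroup.of ⟨(a : G)⁻¹, h.inv a.1 a.2⟩ := by
      rw [map_inv]
      exact of_invV ψ h a
    rw [h1]
    exact hof _
  | mul x y hx hy =>
    rw [map_mul]
    exact hmul _ _ hx hy

/-- the generators of the cover -/
abbrev gens (𝒩 : Set G) : Set (CoverV 𝒩) := Set.range (PresentedGroup.of (rels := relsV 𝒩))

theorem sec_gens {ψ : G →* Wr X G} (h : IsNucleusV ψ 𝒩) (a : 𝒩) (x : X) :
    (liftV ψ h (PresentedGroup.of a)).s x =
      PresentedGroup.of ⟨(ψ a).s x, h.sections a.1 a.2 x⟩ := by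
  rw [liftV_of]
  rfl

theorem ContS.sec {ψ : G →* Wr X G} (h : IsNucleusV ψ 𝒩) {δ : CoverV 𝒩}
    (hδ : ContS (liftV ψ h) (gens 𝒩) δ) (x : X) :
    ContS (liftV ψ h) (gens 𝒩) ((liftV ψ h δ).s x) := by
  cases hδ with
  | base _ hδ =>
    obtain ⟨a, rfl⟩ := hδ
    rw [sec_gens]
    exact ContS.base _ ⟨_, rfl⟩
  | step _ hδ => exact hδ x

theorem ContS.mul_of {ψ : G →* Wr X G} (h : IsNucleusV ψ 𝒩) {g : G} (hg : ContS ψ 𝒩 g) :
    ∀ a b : 𝒩, (a : G) * b = g →
      ContS (liftV ψ h) (gens 𝒩) (PresentedGroup.of a * PresentedGroup.of b) := by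
  induction hg with
  | base g hg =>
    intro a b hab
    exact ContS.base _ ⟨⟨g, hg⟩, (of_mulV a b ⟨g, hg⟩ hab).symm⟩
  | step g _ ih =>
    intro a b hab
    refine ContS.step _ (fun x => ?_)
    rw [map_mul, Wr.mul_s, sec_gens, sec_gens]
    refine ih x _ _ ?_
    rw [← hab, map_mul, Wr.mul_s]
    have h1 : (liftV ψ h (PresentedGroup.of b)).p x = (ψ b).p x := by
      rw [liftV_of]
      rfl
    change (ψ a).s ((liftV ψ h (PresentedGroup.of b)).p x) * (ψ b).s x = _
    rw [h1]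

theorem ContS.mul {ψ : G →* Wr X G} (h : IsNucleusV ψ 𝒩) {γ : CoverV 𝒩}
    (hγ : ContS (liftV ψ h) (gens 𝒩) γ) : ∀ {δ : CoverV 𝒩},
      ContS (liftV ψ h) (gens 𝒩) δ → ContS (liftV ψ h) (gens 𝒩) (γ * δ) := by
  induction hγ with
  | base γ hγ =>
    obtain ⟨a, rfl⟩ := hγ
    intro δ hδ
    induction hδ generalizing a with
    | base δ hδ =>
      obtain ⟨b, rfl⟩ := hδ
      exact ContS.mul_of h (h.mul a.1 a.2 b.1 b.2) a b rfl
    | step δ _ ih =>
      refine ContS.step _ (fun x => ?_)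
      rw [map_mul, Wr.mul_s, sec_gens]
      exact ih x _
  | step γ _ ih =>
    intro δ hδ
    refine ContS.step _ (fun x => ?_)
    rw [map_mul, Wr.mul_s]
    exact ih _ (hδ.sec h x)

theorem contN_of_contS {ψ : Γ →* Wr X Γ} {𝒩 : Set Γ} {γ : Γ} (h : ContS ψ 𝒩 γ) :
    ∀ n, ContN (G := fun _ => Γ) (fun _ => ψ) (fun _ => 𝒩) n γ := by
  induction h with
  | base γ h =>
    intro n
    exact ContN.base (G := fun _ => Γ) (ψ := fun _ => ψ) (𝒩 := fun _ => 𝒩) n γ h
  | step γ _ ih =>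
    intro n
    exact ContN.step (G := fun _ => Γ) (ψ := fun _ => ψ) (𝒩 := fun _ => 𝒩) n γ
      (fun x => ih x (n + 1))

/-- **Self-similar groups over infinite alphabets and their universal covers.** -/
theorem universalV (hC : Closed C) (hE : ExtClosed C) (ψ : G →* Wr X G)
    (hψ : ∀ g, (∀ w, act ψ g w = w) → g = 1) (h : IsNucleusV ψ 𝒩)
    (hP : C (prm (G := fun _ => G) (fun _ => ψ) 0).range) (hN : C (CoverV 𝒩)) : C G := by
  refine contFV (G := fun _ => CoverV 𝒩) (fun _ => liftV ψ h) hC hE ?_ ?_ (fun _ => hN)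
    (𝒩 := fun _ => gens 𝒩) ?_ ?_ (projV 𝒩) (projV_surjective ψ h) ?_
  · intro n γ
    change (Set.range (liftV ψ h γ).s).Finite
    induction γ using coverV_induction ψ h with
    | hof a =>
      have h1 : (Set.range (fun x => (⟨(ψ a).s x, h.sections a.1 a.2 x⟩ : 𝒩))).Finite := by
        refine Set.Finite.of_finite_image (f := Subtype.val) ?_ Subtype.val_injective.injOn
        refine (h.finval a.1 a.2).subset ?_
        rintro _ ⟨_, ⟨x, rfl⟩, rfl⟩
        exact ⟨x, rfl⟩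
      refine (h1.image PresentedGroup.of).subset ?_
      rintro _ ⟨x, rfl⟩
      exact ⟨_, ⟨x, rfl⟩, (sec_gens h a x).symm⟩
    | hmul a b ha hb =>
      refine (Set.Finite.image2 (fun u v => u * v) ha hb).subset ?_
      rintro _ ⟨x, rfl⟩
      rw [map_mul]
      exact ⟨_, ⟨(liftV ψ h b).p x, rfl⟩, _, ⟨x, rfl⟩, rfl⟩
  · intro n
    refine hC.of_injective _ _ (Subgroup.inclusion (K := (prm (G := fun _ => G) (fun _ => ψ) 0).range)
      ?_) (Subgroup.inclusion_injective _) hP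
    rintro _ ⟨γ, rfl⟩
    refine ⟨projV 𝒩 γ, ?_⟩
    change (ψ (projV 𝒩 γ)).p = (liftV ψ h γ).p
    rw [← wmap_liftV ψ h γ, wmap_p]
  · intro n γ
    refine contN_of_contS ?_ n
    induction γ using coverV_induction ψ h with
    | hof a => exact ContS.base _ ⟨a, rfl⟩
    | hmul a b ha hb => exact ha.mul h hb
  · rintro n _ ⟨a, rfl⟩ ha
    have h1 : (a : G) = 1 := by
      apply hψ
      intro w
      have h2 := ha w
      rw [actN_liftV, projV_of] at h2
      exact h2
    have h2 : a = ⟨1, h.one⟩ := Subtype.ext h1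
    rw [h2, of_oneV]
  · intro γ
    constructor
    · intro h1 w
      rw [actN_liftV, h1]
      have h2 : ∀ w, act ψ 1 w = w := by
        intro w
        induction w with
        | nil => rfl
        | cons x w ih =>
          change (ψ 1).p x :: act ψ ((ψ 1).s x) w = _
          rw [map_one]
          change x :: act ψ 1 w = _
          rw [ih]
      exact h2 w
    · intro h1
      apply hψ
      intro w
      rw [← actN_liftV ψ h w 0]
      exact h1 w

end cover

section spinal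

variable {X : Type}

/-- Directed automorphisms over an arbitrary alphabet: the elements of `D n` fix the first letters; the
section at `d` is in `D (n + 1)`, the sections at the other letters are permutations of the next letter
which are in `H (n + 1)`, and there are only finitely many different sections. -/
structure SpinalV (d : X) (H : ℕ → Subgroup (Equiv.Perm X))
    (D : ℕ → Subgroup (Equiv.Perm (List X))) : Prop where
  spine : ∀ n, ∀ b ∈ D n, ∃ c ∈ D (n + 1), ∀ w, b (d :: w) = d :: c w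
  other : ∀ n, ∀ b ∈ D n, ∀ x, x ≠ d → ∃ h ∈ H (n + 1), ∀ w, b (x :: w) = x :: rt h w
  fin : ∀ n, ∀ b ∈ D n, {h : Equiv.Perm X | ∃ x, x ≠ d ∧ ∀ w, b (x :: w) = x :: rt h w}.Finite

namespace SpinalV

variable {d : X} {H : ℕ → Subgroup (Equiv.Perm X)} {D : ℕ → Subgroup (Equiv.Perm (List X))}
  (h : SpinalV d H D)

include h

/-- the section at the letter `d` -/
noncomputable def δ (n : ℕ) : D n →* D (n + 1) :=
  MonoidHom.mk' (fun b => ⟨(h.spine n b.1 b.2).choose, (h.spine n b.1 b.2).choose_spec.1⟩) (by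
    intro a b
    apply Subtype.ext
    ext1 w
    have h1 := (h.spine n (a * b).1 (a * b).2).choose_spec.2 w
    have h2 := (h.spine n b.1 b.2).choose_spec.2 w
    have h3 := (h.spine n a.1 a.2).choose_spec.2 ((h.spine n b.1 b.2).choose w)
    have h4 : (a * b).1 (d :: w) = a.1 (b.1 (d :: w)) := rfl
    rw [h4, h2, h3] at h1
    exact (List.cons.inj h1).2.symm)

theorem δ_spec (n : ℕ) (b : D n) (w : List X) : b.1 (d :: w) = d :: (h.δ n b).1 w :=
  (h.spine n b.1 b.2).choose_spec.2 w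

/-- the section at the other letters -/
noncomputable def ω (n : ℕ) (x : X) (hx : x ≠ d) : D n →* H (n + 1) :=
  MonoidHom.mk' (fun b => ⟨(h.other n b.1 b.2 x hx).choose, (h.other n b.1 b.2 x hx).choose_spec.1⟩)
    (by
    intro a b
    apply Subtype.ext
    apply rt_injective
    ext1 w
    have h1 := (h.other n (a * b).1 (a * b).2 x hx).choose_spec.2 w
    have h2 := (h.other n b.1 b.2 x hx).choose_spec.2 w
    have h3 := (h.other n a.1 a.2 x hx).choose_spec.2 (rt (h.other n b.1 b.2 x hx).choose w)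
    have h4 : (a * b).1 (x :: w) = a.1 (b.1 (x :: w)) := rfl
    rw [h4, h2, h3] at h1
    refine (List.cons.inj h1).2.symm.trans ?_
    change _ = rt (_ * _) w
    rw [map_mul]
    rfl)

theorem ω_spec (n : ℕ) (x : X) (hx : x ≠ d) (b : D n) (w : List X) :
    b.1 (x :: w) = x :: rt (h.ω n x hx b).1 w :=
  (h.other n b.1 b.2 x hx).choose_spec.2 w

theorem nil_eq (n : ℕ) (b : D n) : b.1 [] = [] := by
  classical
  cases h0 : b.1 [] with
  | nil => rfl
  | cons x w =>
    exfalso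
    by_cases hx : x = d
    · subst hx
      have h1 := h.δ_spec n b ((h.δ n b).1.symm w)
      rw [Equiv.apply_symm_apply, ← h0] at h1
      exact absurd (b.1.injective h1) (by simp)
    · have h1 := h.ω_spec n x hx b ((rt (h.ω n x hx b).1).symm w)
      rw [Equiv.apply_symm_apply, ← h0] at h1
      exact absurd (b.1.injective h1) (by simp)

omit h in
/-- the free products -/
abbrev Gm (H : ℕ → Subgroup (Equiv.Perm X)) (D : ℕ → Subgroup (Equiv.Perm (List X))) (n : ℕ) :
    Type := Monoid.Coprod (H n) (D n)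

open Classical in
/-- the sections of the directed automorphisms in the free product -/
noncomputable def sD (n : ℕ) (x : X) : D n →* Gm H D (n + 1) :=
  if hx : x = d then (Monoid.Coprod.inr).comp (h.δ n)
  else (Monoid.Coprod.inl).comp (h.ω n x hx)

theorem sD_d (n : ℕ) (b : D n) : h.sD n d b = Monoid.Coprod.inr (h.δ n b) := by
  unfold sD
  rw [dif_pos rfl]
  rfl

theorem sD_ne (n : ℕ) {x : X} (hx : x ≠ d) (b : D n) :
    h.sD n x b = Monoid.Coprod.inl (h.ω n x hx b) := by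
  unfold sD
  rw [dif_neg hx]
  rfl

/-- the recursion -/
noncomputable def ψ (n : ℕ) : Gm H D n →* Wr X (Gm H D (n + 1)) :=
  Monoid.Coprod.lift
    { toFun := fun a => ⟨fun _ => 1, a.1⟩
      map_one' := rfl
      map_mul' := fun a b => by
        refine Wr.ext ?_ rfl
        funext x
        exact (one_mul 1).symm }
    { toFun := fun b => ⟨fun x => h.sD n x b, 1⟩
      map_one' := by
        refine Wr.ext ?_ rfl
        funext x
        exact map_one _
      map_mul' := fun a b => by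
        refine Wr.ext ?_ (one_mul 1).symm
        funext x
        exact map_mul _ _ _ }

theorem ψ_inl (n : ℕ) (a : H n) : h.ψ n (Monoid.Coprod.inl a) = ⟨fun _ => 1, a.1⟩ := by
  unfold ψ
  rw [Monoid.Coprod.lift_apply_inl]
  rfl

theorem ψ_inr (n : ℕ) (b : D n) : h.ψ n (Monoid.Coprod.inr b) = ⟨fun x => h.sD n x b, 1⟩ := by
  unfold ψ
  rw [Monoid.Coprod.lift_apply_inr]
  rfl

omit h in
/-- the action on the words -/
noncomputable def ev (H : ℕ → Subgroup (Equiv.Perm X)) (D : ℕ → Subgroup (Equiv.Perm (List X)))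
    (n : ℕ) : Gm H D n →* Equiv.Perm (List X) :=
  Monoid.Coprod.lift (rt.comp (H n).subtype) (D n).subtype

omit h in
theorem ev_inl (n : ℕ) (a : H n) : ev H D n (Monoid.Coprod.inl a) = rt a.1 := by
  unfold ev
  rw [Monoid.Coprod.lift_apply_inl]
  rfl

omit h in
theorem ev_inr (n : ℕ) (b : D n) : ev H D n (Monoid.Coprod.inr b) = b.1 := by
  unfold ev
  rw [Monoid.Coprod.lift_apply_inr]
  rfl

theorem ev_nil (n : ℕ) (γ : Gm H D n) : ev H D n γ [] = [] := by
  induction γ using Monoid.Coprod.induction_on with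
  | inl a => rw [ev_inl, rt_nil]
  | inr b => rw [ev_inr, h.nil_eq]
  | mul a b ha hb =>
    rw [map_mul]
    change ev H D n a (ev H D n b []) = []
    rw [hb, ha]

theorem ev_cons (n : ℕ) (γ : Gm H D n) : ∀ (x : X) (w : List X),
    ev H D n γ (x :: w) = (h.ψ n γ).p x :: ev H D (n + 1) ((h.ψ n γ).s x) w := by
  induction γ using Monoid.Coprod.induction_on with
  | inl a =>
    intro x w
    rw [ev_inl, h.ψ_inl, rt_cons]
    change a.1 x :: w = a.1 x :: ev H D (n + 1) 1 w
    rw [map_one]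
    rfl
  | inr b =>
    intro x w
    rw [ev_inr, h.ψ_inr]
    change b.1 (x :: w) = x :: ev H D (n + 1) (h.sD n x b) w
    by_cases hx : x = d
    · subst hx
      rw [h.sD_d, ev_inr, h.δ_spec]
    · rw [h.sD_ne n hx, ev_inl, h.ω_spec n x hx]
  | mul a b ha hb =>
    intro x w
    rw [map_mul, map_mul]
    change ev H D n a (ev H D n b (x :: w)) = (h.ψ n a).p ((h.ψ n b).p x) ::
      ev H D (n + 1) ((h.ψ n a).s ((h.ψ n b).p x) * (h.ψ n b).s x) w
    rw [hb, ha, map_mul]
    rfl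

theorem act_eq (w : List X) : ∀ (n : ℕ) (γ : Gm H D n), actN h.ψ n γ w = ev H D n γ w := by
  induction w with
  | nil =>
    intro n γ
    rw [h.ev_nil]
    rfl
  | cons x w ih =>
    intro n γ
    rw [h.ev_cons]
    change (h.ψ n γ).p x :: actN h.ψ (n + 1) ((h.ψ n γ).s x) w = _
    rw [ih]

theorem finVal_all (n : ℕ) (γ : Gm H D n) : (Set.range (h.ψ n γ).s).Finite := by
  induction γ using Monoid.Coprod.induction_on with
  | inl a =>
    rw [h.ψ_inl]
    refine (Set.finite_singleton (1 : Gm H D (n + 1))).subset ?_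
    rintro _ ⟨x, rfl⟩
    rfl
  | inr b =>
    rw [h.ψ_inr]
    have h1 : {a : H (n + 1) | ∃ x, x ≠ d ∧ ∀ w, b.1 (x :: w) = x :: rt a.1 w}.Finite :=
      Set.Finite.preimage (f := fun a : H (n + 1) => (a : Equiv.Perm X))
        (s := {k : Equiv.Perm X | ∃ x, x ≠ d ∧ ∀ w, b.1 (x :: w) = x :: rt k w})
        (Subtype.val_injective.injOn) (h.fin n b.1 b.2)
    refine ((h1.image Monoid.Coprod.inl).union
      (Set.finite_singleton (Monoid.Coprod.inr (h.δ n b)))).subset ?_
    rintro _ ⟨x, rfl⟩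
    by_cases hxd : x = d
    · right
      subst hxd
      exact h.sD_d n b
    · left
      refine ⟨h.ω n x hxd b, ⟨x, hxd, h.ω_spec n x hxd b⟩, ?_⟩
      exact (h.sD_ne n hxd b).symm
  | mul a b ha hb =>
    refine (Set.Finite.image2 (fun u v => u * v) ha hb).subset ?_
    rintro _ ⟨x, rfl⟩
    rw [map_mul]
    exact ⟨_, ⟨(h.ψ n b).p x, rfl⟩, _, ⟨x, rfl⟩, rfl⟩

theorem prm_mem (n : ℕ) (γ : Gm H D n) : (h.ψ n γ).p ∈ H n := by
  induction γ using Monoid.Coprod.induction_on with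
  | inl a =>
    rw [h.ψ_inl]
    exact a.2
  | inr b =>
    rw [h.ψ_inr]
    exact one_mem _
  | mul a b ha hb =>
    rw [map_mul]
    exact mul_mem ha hb

omit h in
/-- the elements with at most `m` syllables from `D` -/
def W (H : ℕ → Subgroup (Equiv.Perm X)) (D : ℕ → Subgroup (Equiv.Perm (List X))) (n : ℕ) :
    ℕ → Set (Gm H D n)
  | 0 => Set.range Monoid.Coprod.inl
  | m + 1 => {γ | ∃ (a : H n) (b : D n), ∃ δ ∈ W H D n m,
      γ = Monoid.Coprod.inl a * Monoid.Coprod.inr b * δ}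

omit h in
theorem inl_mul {n m : ℕ} (a : H n) {γ : Gm H D n} (hγ : γ ∈ W H D n m) :
    Monoid.Coprod.inl a * γ ∈ W H D n m := by
  cases m with
  | zero =>
    obtain ⟨a', rfl⟩ := hγ
    exact ⟨a * a', map_mul _ _ _⟩
  | succ m =>
    obtain ⟨a', b, δ, hδ, rfl⟩ := hγ
    exact ⟨a * a', b, δ, hδ, by rw [map_mul]; simp only [mul_assoc]⟩

omit h in
theorem inr_mul {n m : ℕ} (b : D n) {γ : Gm H D n} (hγ : γ ∈ W H D n m) :
    Monoid.Coprod.inr b * γ ∈ W H D n (m + 1) :=
  ⟨1, b, γ, hγ, by rw [map_one, one_mul]⟩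

omit h in
theorem W_succ {n m : ℕ} {γ : Gm H D n} (hγ : γ ∈ W H D n m) : γ ∈ W H D n (m + 1) :=
  ⟨1, 1, γ, hγ, by rw [map_one, map_one, one_mul, one_mul]⟩

omit h in
theorem one_mem_W (n : ℕ) : (1 : Gm H D n) ∈ W H D n 0 := ⟨1, map_one _⟩

omit h in
theorem W_one_le {n : ℕ} (m : ℕ) {γ : Gm H D n} (hγ : γ ∈ W H D n 1) : γ ∈ W H D n (m + 1) := by
  induction m with
  | zero => exact hγ
  | succ m ih => exact W_succ ih

omit h in
theorem W_mul {n m k : ℕ} {γ δ : Gm H D n} (hγ : γ ∈ W H D n m) (hδ : δ ∈ W H D n k) :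
    γ * δ ∈ W H D n (m + k) := by
  induction m generalizing γ with
  | zero =>
    obtain ⟨a, rfl⟩ := hγ
    rw [zero_add]
    exact inl_mul a hδ
  | succ m ih =>
    obtain ⟨a, b, γ', hγ', rfl⟩ := hγ
    have : m + 1 + k = (m + k) + 1 := by ring
    rw [this]
    exact ⟨a, b, γ' * δ, ih hγ', by rw [mul_assoc]⟩

omit h in
theorem exists_W {n : ℕ} (γ : Gm H D n) : ∃ m, γ ∈ W H D n m := by
  induction γ using Monoid.Coprod.induction_on with
  | inl a => exact ⟨0, a, rfl⟩
  | inr b => exact ⟨1, 1, b, 1, one_mem_W n, by rw [map_one, one_mul, mul_one]⟩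
  | mul a b ha hb =>
    obtain ⟨m, hm⟩ := ha
    obtain ⟨k, hk⟩ := hb
    exact ⟨m + k, W_mul hm hk⟩

theorem sec_W0 {n : ℕ} {γ : Gm H D n} (hγ : γ ∈ W H D n 0) (x : X) : (h.ψ n γ).s x = 1 := by
  obtain ⟨a, rfl⟩ := hγ
  rw [h.ψ_inl]

theorem sec_step {n : ℕ} (a : H n) (b : D n) (δ : Gm H D n) (x : X) :
    (h.ψ n (Monoid.Coprod.inl a * Monoid.Coprod.inr b * δ)).s x =
      h.sD n ((h.ψ n δ).p x) b * (h.ψ n δ).s x := by
  rw [map_mul, map_mul, h.ψ_inl, h.ψ_inr, Wr.mul_s, Wr.mul_s]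
  change 1 * h.sD n ((h.ψ n δ).p x) b * (h.ψ n δ).s x = _
  rw [one_mul]

theorem sec_W (m : ℕ) : ∀ {n : ℕ} {γ : Gm H D n}, γ ∈ W H D n (m + 1) → ∀ x : X,
    (h.ψ n γ).s x ∈ Set.range (Monoid.Coprod.inr : D (n + 1) →* Gm H D (n + 1)) ∨
      (h.ψ n γ).s x ∈ W H D (n + 1) m := by
  induction m with
  | zero =>
    rintro n _ ⟨a, b, δ, hδ, rfl⟩ x
    rw [h.sec_step, h.sec_W0 hδ, mul_one]
    by_cases hx : (h.ψ n δ).p x = d
    · rw [hx, h.sD_d]
      exact Or.inl ⟨_, rfl⟩
    · rw [h.sD_ne n hx]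
      exact Or.inr ⟨_, rfl⟩
  | succ m ih =>
    rintro n _ ⟨a, b, δ, hδ, rfl⟩ x
    rw [h.sec_step]
    by_cases hx : (h.ψ n δ).p x = d
    · rw [hx, h.sD_d]
      rcases ih hδ x with ⟨b', hb'⟩ | h1
      · left
        rw [← hb']
        exact ⟨_, map_mul _ _ _⟩
      · right
        exact inr_mul _ h1
    · rw [h.sD_ne n hx]
      right
      rcases ih hδ x with ⟨b', hb'⟩ | h1
      · rw [← hb']
        exact W_one_le m ⟨h.ω n _ hx b, b', 1, one_mem_W _, (mul_one _).symm⟩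
      · exact W_succ (inl_mul _ h1)

omit h in
/-- the two factors -/
def Nuc (H : ℕ → Subgroup (Equiv.Perm X)) (D : ℕ → Subgroup (Equiv.Perm (List X))) (n : ℕ) :
    Set (Gm H D n) := Set.range Monoid.Coprod.inl ∪ Set.range Monoid.Coprod.inr

theorem cont (m : ℕ) : ∀ {n : ℕ} {γ : Gm H D n}, γ ∈ W H D n m →
    ContN h.ψ (Nuc H D) n γ := by
  induction m with
  | zero =>
    intro n γ hγ
    exact ContN.base n γ (Or.inl hγ)
  | succ m ih =>
    intro n γ hγ
    refine ContN.step n γ (fun x => ?_)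
    rcases h.sec_W m hγ x with h1 | h1
    · exact ContN.base _ _ (Or.inr h1)
    · exact ih h1

theorem faithful : FaithfulN h.ψ (Nuc H D) := by
  intro n γ hγ hact
  rcases hγ with ⟨a, rfl⟩ | ⟨b, rfl⟩
  · have h1 : a = 1 := by
      apply Subtype.ext
      apply rt_injective
      ext1 w
      have h2 := hact w
      rw [h.act_eq, ev_inl] at h2
      rw [h2]
      change w = rt 1 w
      rw [map_one]
      rfl
    rw [h1, map_one]
  · have h1 : b = 1 := by
      apply Subtype.ext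
      ext1 w
      have h2 := hact w
      rw [h.act_eq, ev_inr] at h2
      rw [h2]
      rfl
    rw [h1, map_one]

/-- **Spinal groups over infinite alphabets.** -/
theorem mem (hC : Closed C) (hE : ExtClosed C) (hH : ∀ n, C (H n)) (hD : ∀ n, C (D n))
    (G : Type) [Group G] (f : G →* Equiv.Perm (List X)) (hf : Function.Injective f)
    (S : Set G) (hS : Subgroup.closure S = ⊤)
    (hg : ∀ s ∈ S, f s ∈ D 0 ∨ ∃ a ∈ H 0, f s = rt a) : C G := by
  have h0 : C (ev H D 0).range := by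
    refine contFV h.ψ hC hE h.finVal_all ?_ ?_ (𝒩 := Nuc H D) ?_ h.faithful
      (ev H D 0).rangeRestrict (ev H D 0).rangeRestrict_surjective ?_
    · intro n
      refine hC.of_injective _ (H n) (Subgroup.inclusion ?_) (Subgroup.inclusion_injective _) (hH n)
      rintro _ ⟨γ, rfl⟩
      exact h.prm_mem n γ
    · intro n
      exact hC.coprod _ _ (hH n) (hD n)
    · intro n γ
      obtain ⟨m, hm⟩ := exists_W γ
      exact h.cont m hm
    · intro γ
      constructor
      · intro h1 w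
        have h2 : ev H D 0 γ = 1 := congrArg Subtype.val h1
        rw [h.act_eq, h2]
        rfl
      · intro h1
        apply Subtype.ext
        ext1 w
        have h2 := h1 w
        rw [h.act_eq] at h2
        exact h2
  have h1 : ∀ g, f g ∈ (ev H D 0).range := by
    have h2 : Subgroup.closure S ≤ ((ev H D 0).range).comap f := by
      rw [Subgroup.closure_le]
      intro s hs
      rcases hg s hs with h3 | ⟨a, ha, h3⟩
      · exact ⟨Monoid.Coprod.inr ⟨f s, h3⟩, ev_inr 0 _⟩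
      · refine ⟨Monoid.Coprod.inl ⟨a, ha⟩, ?_⟩
        rw [ev_inl]
        exact h3.symm
    intro g
    have h3 : g ∈ Subgroup.closure S := by rw [hS]; exact Subgroup.mem_top g
    exact h2 h3
  refine hC.of_injective _ _ (f.codRestrict _ h1) ?_ h0
  intro a b hab
  exact hf (congrArg Subtype.val hab)

end SpinalV

end spinal

end Pool.Agent.H106FJ
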