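import Pool.Agent.H106FJ.Core

/-!
# Kernels that depend functorially on a locally finite group
-/

set_option autoImplicit false
set_option linter.unusedSectionVars false
set_option linter.style.haveILetI false

namespace Pool.Agent.H106FJ

open Pool.Agent.Y462.SS Pool.Agent.Q152.WP Pool.Agent.Q105.FJ

variable {C : ∀ (G : Type) [Group G], Prop}

/-- every finite set generates a finite subgroup -/
def LocFin (V : Type) [Group V] : Prop := ∀ S : Finset V, Finite (Subgroup.closure (S : Set V))

/-- two free actions of a group on a finite set by translations are conjugate -/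
theorem exists_conj {S A : Type} [Group S] [Group A] [Finite S] (f₁ f₂ : A →* S)
    (h₁ : Function.Injective f₁) (h₂ : Function.Injective f₂) :
    ∃ ρ : Equiv.Perm S, ∀ a s, ρ (s * f₁ a) = ρ s * f₂ a := by
  classical
  haveI : Finite A := Finite.of_injective f₁ h₁
  have key : ∀ f : A →* S, Function.Injective f →
      ∃ e : (S ⧸ f.range) × A ≃ S, ∀ c a b, e (c, a * b) = e (c, a) * f b := by
    intro f hf
    let u : (S ⧸ f.range) × A → S := fun p => p.1.out * f p.2
    have hu : Function.Bijective u := by
      constructor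
      · rintro ⟨c, a⟩ ⟨d, b⟩ h
        have h1 : c.out * f a = d.out * f b := h
        have h2 : c = d := by
          have h3 : ((c.out * f a : S) : S ⧸ f.range) = ((d.out * f b : S) : S ⧸ f.range) := by
            rw [h1]
          have h4 : ∀ (c : S ⧸ f.range) a, ((c.out * f a : S) : S ⧸ f.range) = c := by
            intro c a
            have : ((c.out * f a : S) : S ⧸ f.range) = (c.out : S ⧸ f.range) := by
              refine QuotientGroup.eq.2 ?_
              refine ⟨a⁻¹, ?_⟩
              rw [map_inv]
              group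
            rw [this]
            exact QuotientGroup.out_eq' c
          rwa [h4, h4] at h3
        subst h2
        have h5 : f a = f b := mul_left_cancel h1
        rw [hf h5]
      · intro s
        have h1 : ((s : S ⧸ f.range).out : S ⧸ f.range) = (s : S ⧸ f.range) :=
          QuotientGroup.out_eq' _
        obtain ⟨a, ha⟩ := QuotientGroup.eq.1 h1
        refine ⟨((s : S ⧸ f.range), a), ?_⟩
        change (s : S ⧸ f.range).out * f a = s
        rw [ha]
        group
    refine ⟨Equiv.ofBijective u hu, ?_⟩
    intro c a b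
    change c.out * f (a * b) = c.out * f a * f b
    rw [map_mul, mul_assoc]
  obtain ⟨e₁, k₁⟩ := key f₁ h₁
  obtain ⟨e₂, k₂⟩ := key f₂ h₂
  have hcard : Nat.card (S ⧸ f₁.range) = Nat.card (S ⧸ f₂.range) := by
    have c1 := Nat.card_congr e₁
    have c2 := Nat.card_congr e₂
    rw [Nat.card_prod] at c1 c2
    have : Nat.card (S ⧸ f₁.range) * Nat.card A = Nat.card (S ⧸ f₂.range) * Nat.card A := by
      rw [c1, c2]
    exact Nat.eq_of_mul_eq_mul_right Nat.card_pos this
  obtain ⟨θ⟩ : Nonempty ((S ⧸ f₁.range) ≃ (S ⧸ f₂.range)) :=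
    ⟨(Finite.equivFinOfCardEq hcard).trans (Finite.equivFinOfCardEq rfl).symm⟩
  refine ⟨(e₁.symm.trans (Equiv.prodCongr θ (Equiv.refl A))).trans e₂, ?_⟩
  intro a s
  obtain ⟨⟨c, b⟩, rfl⟩ := e₁.surjective s
  rw [← k₁]
  change e₂ ((Equiv.prodCongr θ (Equiv.refl A)) (e₁.symm (e₁ (c, b * a)))) =
    e₂ ((Equiv.prodCongr θ (Equiv.refl A)) (e₁.symm (e₁ (c, b)))) * f₂ a
  rw [Equiv.symm_apply_apply, Equiv.symm_apply_apply]
  exact k₂ _ _ _

/-- the right regular representation -/
def rr (S : Type) [Group S] : S →* Equiv.Perm S where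
  toFun s := Equiv.mulRight s⁻¹
  map_one' := by
    ext x
    simp
  map_mul' a b := by
    ext x
    simp [mul_assoc]

theorem rr_apply {S : Type} [Group S] (s x : S) : rr S s x = x * s⁻¹ := rfl

theorem rr_injective (S : Type) [Group S] : Function.Injective (rr S) := by
  intro a b h
  have := DFunLike.congr_fun h 1
  rw [rr_apply, rr_apply, one_mul, one_mul] at this
  exact inv_injective this

/-- two embeddings of a group into a finite group become conjugate in the symmetric group -/
theorem exists_perm {S A : Type} [Group S] [Group A] [Finite S] (f₁ f₂ : A →* S)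
    (h₁ : Function.Injective f₁) (h₂ : Function.Injective f₂) :
    ∃ ρ : Equiv.Perm S, ∀ a, rr S (f₂ a) = MulAut.conj ρ (rr S (f₁ a)) := by
  obtain ⟨ρ, hρ⟩ := exists_conj f₁ f₂ h₁ h₂
  refine ⟨ρ, fun a => ?_⟩
  rw [MulAut.conj_apply, eq_mul_inv_iff_mul_eq]
  ext x
  change ρ x * (f₂ a)⁻¹ = ρ (x * (f₁ a)⁻¹)
  rw [← map_inv, ← map_inv, hρ]

/-- A functor from groups and injective homomorphisms to groups, such that the homomorphisms of the
embeddings of finite groups are injective, and for a locally finite group every element of the value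
comes from a finite subgroup. -/
structure GFun where
  obj : ∀ (V : Type) [Group V], Type
  grp : ∀ (V : Type) [Group V], Group (obj V)
  map : ∀ {V W : Type} [Group V] [Group W] (f : V →* W), Function.Injective f → (obj V →* obj W)
  map_id : ∀ (V : Type) [Group V] (x : obj V),
    map (MonoidHom.id V) Function.injective_id x = x
  map_comp : ∀ {U V W : Type} [Group U] [Group V] [Group W] (g : V →* W) (f : U →* V)
    (hg : Function.Injective g) (hf : Function.Injective f) (x : obj U),
    map g hg (map f hf x) = map (g.comp f) (hg.comp hf) x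
  inj : ∀ {V W : Type} [Group V] [Group W] [Finite V] (f : V →* W) (hf : Function.Injective f),
    Function.Injective (map f hf)
  fin : ∀ (V : Type) [Group V], LocFin V → ∀ x : obj V,
    ∃ S : Subgroup V, Finite S ∧ ∃ y : obj S, map S.subtype S.subtype_injective y = x

attribute [instance] GFun.grp

namespace GFun

variable (N : GFun)

theorem map_congr {V W : Type} [Group V] [Group W] {f g : V →* W} (h : f = g)
    (hf : Function.Injective f) (hg : Function.Injective g) (x : N.obj V) :
    N.map f hf x = N.map g hg x := by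
  subst h
  rfl

theorem ainj {V : Type} [Group V] (σ : MulAut V) : Function.Injective σ.toMonoidHom := σ.injective

/-- the action of the automorphisms -/
def aut (V : Type) [Group V] : MulAut V →* MulAut (N.obj V) where
  toFun σ :=
    { toFun := N.map σ.toMonoidHom (ainj σ)
      invFun := N.map σ.symm.toMonoidHom (ainj σ.symm)
      left_inv := fun x => by
        rw [N.map_comp]
        have h1 : σ.symm.toMonoidHom.comp σ.toMonoidHom = MonoidHom.id V := by
          ext v
          exact σ.symm_apply_apply v
        rw [N.map_congr h1 _ Function.injective_id, N.map_id]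
      right_inv := fun x => by
        rw [N.map_comp]
        have h1 : σ.toMonoidHom.comp σ.symm.toMonoidHom = MonoidHom.id V := by
          ext v
          exact σ.apply_symm_apply v
        rw [N.map_congr h1 _ Function.injective_id, N.map_id]
      map_mul' := fun x y => map_mul _ x y }
  map_one' := by
    ext x
    exact N.map_id V x
  map_mul' a b := by
    ext x
    change N.map (a * b).toMonoidHom (ainj (a * b)) x =
      N.map a.toMonoidHom (ainj a) (N.map b.toMonoidHom (ainj b) x)
    rw [N.map_comp]
    rfl

theorem aut_apply {V : Type} [Group V] (σ : MulAut V) (x : N.obj V) :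
    N.aut V σ x = N.map σ.toMonoidHom (ainj σ) x := rfl

/-- the finite subgroups -/
abbrev FS (V : Type) [Group V] : Type := {S : Subgroup V // Finite S}

theorem fs_dir {V : Type} [Group V] (hV : LocFin V) (S T : FS V) : ∃ R : FS V, S ≤ R ∧ T ≤ R := by
  classical
  haveI := S.2
  haveI := T.2
  let A : Finset V := (Set.toFinite (S.1 : Set V)).toFinset ∪ (Set.toFinite (T.1 : Set V)).toFinset
  refine ⟨⟨Subgroup.closure (A : Set V), hV A⟩, ?_, ?_⟩
  · intro x hx
    refine Subgroup.subset_closure ?_
    simp only [A, Finset.coe_union, Set.Finite.coe_toFinset]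
    exact Or.inl hx
  · intro x hx
    refine Subgroup.subset_closure ?_
    simp only [A, Finset.coe_union, Set.Finite.coe_toFinset]
    exact Or.inr hx

/-- the part of `S` that `σ` carries into `S` -/
def capG {V : Type} [Group V] (σ : MulAut V) (S : Subgroup V) : Subgroup V :=
  S ⊓ S.comap σ.toMonoidHom

theorem capG_le {V : Type} [Group V] (σ : MulAut V) (S : Subgroup V) : capG σ S ≤ S := inf_le_left

/-- the translation -/
def capT {V : Type} [Group V] (σ : MulAut V) (S : Subgroup V) : capG σ S →* S :=
  (σ.toMonoidHom.comp (capG σ S).subtype).codRestrict S (fun x => x.2.2)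

theorem capT_injective {V : Type} [Group V] (σ : MulAut V) (S : Subgroup V) :
    Function.Injective (capT σ S) := by
  intro a b h
  exact Subtype.ext (σ.injective (congrArg (fun z : S => (z : V)) h))

theorem incl_injective {V : Type} [Group V] {S T : Subgroup V} (h : S ≤ T) :
    Function.Injective (Subgroup.inclusion h) := Subgroup.inclusion_injective h

/-- **the automorphisms are locally of finite order** -/
theorem approx (hfin : ∀ (V : Type) [Group V] [Finite V], C (N.obj V)) {L : Type} [Group L]
    (hL : LocFin L) (σ : MulAut L) : Approx C (N.aut L σ) := by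
  classical
  refine ⟨FS L, inferInstance, fun S => N.obj S.1, fun S => N.obj (capG σ S.1),
    fun S => inferInstance, fun S => inferInstance,
    fun S => N.map S.1.subtype S.1.subtype_injective,
    fun S => N.map (Subgroup.inclusion (capG_le σ S.1)) (incl_injective _),
    fun S => N.map (capT σ S.1) (capT_injective σ S.1), ?_, fs_dir hL, ?_, ?_, ?_, ?_, ?_⟩
  · exact ⟨⟨⊥, inferInstance⟩⟩
  · intro S
    haveI := S.2
    exact N.inj _ _
  · intro S T hST
    have h1 : S.1 ≤ T.1 := hST
    have h2 : capG σ S.1 ≤ capG σ T.1 := fun x hx => ⟨h1 hx.1, h1 hx.2⟩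
    constructor
    · intro x
      refine ⟨N.map (Subgroup.inclusion h1) (incl_injective _) x, ?_⟩
      change N.map T.1.subtype T.1.subtype_injective _ = _
      rw [N.map_comp]
      rfl
    · intro x
      refine ⟨N.map (Subgroup.inclusion h2) (incl_injective _) x, ?_⟩
      simp only [N.map_comp]
      rfl
  · intro x
    obtain ⟨S, hS, y, hy⟩ := N.fin L hL x
    -- a finite subgroup containing `S` and `σ S`
    haveI := hS
    haveI : Finite (S.map σ.toMonoidHom) :=
      Finite.of_surjective (fun z : S => (⟨σ z.1, ⟨z.1, z.2, rfl⟩⟩ : S.map σ.toMonoidHom)) (by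
        rintro ⟨_, z, hz, rfl⟩
        exact ⟨⟨z, hz⟩, rfl⟩)
    obtain ⟨R, h1, h2⟩ := fs_dir hL ⟨S, hS⟩ ⟨S.map σ.toMonoidHom, inferInstance⟩
    have h3 : S ≤ capG σ R.1 := fun z hz => ⟨h1 hz, h2 ⟨z, hz, rfl⟩⟩
    refine ⟨R, N.map (Subgroup.inclusion h3) (incl_injective _) y, ?_⟩
    simp only [N.map_comp]
    rw [← hy]
    rfl
  · intro S y
    rw [aut_apply]
    simp only [N.map_comp]
    rfl
  · intro S
    haveI := S.2
    obtain ⟨ρ, hρ⟩ := exists_perm (Subgroup.inclusion (capG_le σ S.1)) (capT σ S.1)
      (incl_injective _) (capT_injective σ S.1)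
    refine ⟨N.obj (Equiv.Perm S.1), inferInstance, N.aut _ (MulAut.conj ρ),
      N.map (rr S.1) (rr_injective S.1), hfin _, ?_, N.inj _ _, ?_⟩
    · have h1 : IsOfFinOrder ρ := isOfFinOrder_of_finite ρ
      exact MonoidHom.isOfFinOrder _ (MonoidHom.isOfFinOrder _ h1)
    · intro y
      rw [aut_apply]
      simp only [N.map_comp]
      refine N.map_congr ?_ _ _ y
      ext a : 1
      exact hρ a

/-- the values at locally finite groups are in the class -/
theorem obj_mem (hC : Closed C) (hfin : ∀ (V : Type) [Group V] [Finite V], C (N.obj V)) (L : Type)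
    [Group L] (hL : LocFin L) : C (N.obj L) := by
  classical
  haveI : Nonempty (FS L) := ⟨⟨⊥, inferInstance⟩⟩
  refine Pool.Agent.Y430.SS.of_directed hC _ (FS L) (fs_dir hL)
    (fun S => (N.map S.1.subtype S.1.subtype_injective).range) ?_ ?_ ?_
  · rintro S T hST _ ⟨x, rfl⟩
    refine ⟨N.map (Subgroup.inclusion hST) (incl_injective _) x, ?_⟩
    rw [N.map_comp]
    rfl
  · intro g
    obtain ⟨S, hS, y, hy⟩ := N.fin L hL g
    exact ⟨⟨S, hS⟩, y, hy⟩
  · intro S
    haveI := S.2
    refine Pool.Agent.Y812.SS.C_equiv hC (MonoidHom.ofInjective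
      (N.inj S.1.subtype S.1.subtype_injective)).symm ?_
    exact hfin _

/-- **Kernels that depend functorially on a locally finite group.** -/
theorem kernel_mem (hC : Closed C) (hE : ExtClosed C)
    (hfin : ∀ (V : Type) [Group V] [Finite V], C (N.obj V)) {L : Type} [Group L] (hL : LocFin L)
    {G Q : Type} [Group G] [Group Q] (f : G →* Q) (hf : Function.Surjective f) (hQ : C Q)
    (ι : N.obj L →* G) (hι : Function.Injective ι) (hker : ι.range = f.ker)
    (h : ∀ g : G, ¬ IsOfFinOrder (f g) → ∃ (n : N.obj L) (σ : MulAut L),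
      ∀ x, g * ι x * g⁻¹ = ι (n * N.map σ.toMonoidHom (ainj σ) x * n⁻¹)) : C G := by
  refine approx_kernel hC hE f hf hQ (N.obj_mem hC hfin L hL) ι hι hker ?_
  intro g hg
  obtain ⟨n, σ, hσ⟩ := h g hg
  exact ⟨n, N.aut L σ, N.approx hfin hL σ, hσ⟩

end GFun

end Pool.Agent.H106FJ
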