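import Pool.Agent.H106FJ.LF

/-!
# General linear groups of group rings of locally finite groups
-/

set_option autoImplicit false
set_option linter.unusedSectionVars false
set_option linter.style.haveILetI false

namespace Pool.Agent.H106FJ

open Pool.Agent.Y462.SS Pool.Agent.Q152.WP Pool.Agent.Q105.FJ

variable {C : ∀ (G : Type) [Group G], Prop}

/-- the general linear group of the group ring `k[V]` -/
abbrev GLG (k : Type) [CommRing k] (n : ℕ) (V : Type) [Group V] : Type :=
  (Matrix (Fin n) (Fin n) (MonoidAlgebra k V))ˣ

/-- the homomorphism of matrix rings -/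
noncomputable def mmap (k : Type) [CommRing k] (n : ℕ) {V W : Type} [Group V] [Group W]
    (f : V →* W) : Matrix (Fin n) (Fin n) (MonoidAlgebra k V) →+*
      Matrix (Fin n) (Fin n) (MonoidAlgebra k W) :=
  (MonoidAlgebra.mapDomainRingHom k f).mapMatrix

/-- the homomorphism of general linear groups -/
noncomputable def gmap (k : Type) [CommRing k] (n : ℕ) {V W : Type} [Group V] [Group W]
    (f : V →* W) : GLG k n V →* GLG k n W := Units.map (mmap k n f).toMonoidHom

theorem mmap_apply (k : Type) [CommRing k] (n : ℕ) {V W : Type} [Group V] [Group W]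
    (f : V →* W) (x : Matrix (Fin n) (Fin n) (MonoidAlgebra k V)) (i j : Fin n) :
    mmap k n f x i j = MonoidAlgebra.mapDomain f (x i j) := rfl

theorem mmap_injective (k : Type) [CommRing k] (n : ℕ) {V W : Type} [Group V] [Group W]
    {f : V →* W} (hf : Function.Injective f) : Function.Injective (mmap k n f) := by
  intro x y h
  ext1 i j
  have h1 : mmap k n f x i j = mmap k n f y i j := by rw [h]
  exact MonoidAlgebra.mapDomain_injective hf h1

theorem mmap_comp (k : Type) [CommRing k] (n : ℕ) {U V W : Type} [Group U] [Group V] [Group W]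
    (g : V →* W) (f : U →* V) (x : Matrix (Fin n) (Fin n) (MonoidAlgebra k U)) :
    mmap k n g (mmap k n f x) = mmap k n (g.comp f) x := by
  ext1 i j
  have h := RingHom.congr_fun (MonoidAlgebra.mapDomainRingHom_comp (R := k) g f) (x i j)
  exact h.symm

theorem mmap_id (k : Type) [CommRing k] (n : ℕ) {V : Type} [Group V]
    (x : Matrix (Fin n) (Fin n) (MonoidAlgebra k V)) : mmap k n (MonoidHom.id V) x = x := by
  ext1 i j
  have h := RingHom.congr_fun (MonoidAlgebra.mapDomainRingHom_id (R := k) (M := V)) (x i j)
  exact h

/-- matrices with supports in a subgroup come from it -/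
theorem mmap_range (k : Type) [CommRing k] (n : ℕ) {V : Type} [Group V] (S : Subgroup V)
    (x : Matrix (Fin n) (Fin n) (MonoidAlgebra k V))
    (hx : ∀ i j, ∀ v ∈ (x i j).coeff.support, v ∈ S) : ∃ y, mmap k n S.subtype y = x := by
  classical
  refine ⟨fun i j => MonoidAlgebra.ofCoeff ((x i j).coeff.comapDomain (Subtype.val : S → V)
    Subtype.val_injective.injOn), ?_⟩
  ext1 i j
  change MonoidAlgebra.ofCoeff (Finsupp.mapDomain (Subtype.val : S → V)
    ((x i j).coeff.comapDomain (Subtype.val : S → V) Subtype.val_injective.injOn)) = x i j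
  rw [Finsupp.mapDomain_comapDomain _ Subtype.val_injective]
  intro v hv
  exact ⟨⟨v, hx i j v hv⟩, rfl⟩

/-- the functor -/
noncomputable def glFun (k : Type) [CommRing k] (n : ℕ) : GFun where
  obj V := GLG k n V
  grp V := inferInstance
  map f _ := gmap k n f
  map_id V _ x := by
    ext1
    exact mmap_id k n x.val
  map_comp g f _ _ x := by
    ext1
    exact mmap_comp k n g f x.val
  inj f hf := by
    intro x y h
    ext1
    exact mmap_injective k n hf (congrArg Units.val h)
  fin V _ hV x := by
    classical
    let T : Finset V := Finset.univ.biUnion fun p : Fin n × Fin n =>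
      (x.val p.1 p.2).coeff.support ∪ (x⁻¹.val p.1 p.2).coeff.support
    let S : Subgroup V := Subgroup.closure (T : Set V)
    have h1 : ∀ i j, ∀ v ∈ (x.val i j).coeff.support, v ∈ S := fun i j v hv =>
      Subgroup.subset_closure (by
        simp only [T, Finset.coe_biUnion, Set.mem_iUnion]
        exact ⟨(i, j), Finset.mem_coe.2 (Finset.mem_univ _),
          Finset.mem_coe.2 (Finset.mem_union_left _ hv)⟩)
    have h2 : ∀ i j, ∀ v ∈ (x⁻¹.val i j).coeff.support, v ∈ S := fun i j v hv =>
      Subgroup.subset_closure (by
        simp only [T, Finset.coe_biUnion, Set.mem_iUnion]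
        exact ⟨(i, j), Finset.mem_coe.2 (Finset.mem_univ _),
          Finset.mem_coe.2 (Finset.mem_union_right _ hv)⟩)
    obtain ⟨y, hy⟩ := mmap_range k n S x.val h1
    obtain ⟨z, hz⟩ := mmap_range k n S x⁻¹.val h2
    refine ⟨S, hV T, ⟨y, z, ?_, ?_⟩, ?_⟩
    · refine mmap_injective k n S.subtype_injective ?_
      rw [map_mul, hy, hz, map_one]
      exact x.mul_inv
    · refine mmap_injective k n S.subtype_injective ?_
      rw [map_mul, hy, hz, map_one]
      exact x.inv_mul
    · ext1
      exact hy

/-- the regular representation embeds the general linear group of the group ring of a finite group in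
a general linear group of the ring -/
theorem gl_fin (hC : Closed C) (k : Type) [CommRing k]
    (hk : ∀ m : ℕ, C (Matrix (Fin m) (Fin m) k)ˣ) (n : ℕ) (V : Type) [Group V] [Finite V] :
    C (GLG k n V) := by
  classical
  haveI : Fintype V := Fintype.ofFinite V
  let e : Fin n × V ≃ Fin (Fintype.card (Fin n × V)) := Fintype.equivFin _
  let b := MonoidAlgebra.basis V k
  let f₁ : MonoidAlgebra k V →+* Matrix V V k := (Algebra.leftMulMatrix b).toRingHom
  have hf₁ : Function.Injective f₁ := Algebra.leftMulMatrix_injective b
  let f₂ : Matrix (Fin n) (Fin n) (MonoidAlgebra k V) →+* Matrix (Fin n) (Fin n) (Matrix V V k) :=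
    f₁.mapMatrix
  have hf₂ : Function.Injective f₂ := by
    intro x y h
    ext1 i j
    have h1 : f₂ x i j = f₂ y i j := by rw [h]
    exact hf₁ h1
  let f₃ : Matrix (Fin n) (Fin n) (Matrix V V k) →+* Matrix (Fin n × V) (Fin n × V) k :=
    (Matrix.compRingEquiv (Fin n) V k).toRingHom
  have hf₃ : Function.Injective f₃ := (Matrix.compRingEquiv (Fin n) V k).injective
  let f₄ : Matrix (Fin n × V) (Fin n × V) k →+* Matrix (Fin (Fintype.card (Fin n × V)))
      (Fin (Fintype.card (Fin n × V))) k := (Matrix.reindexRingEquiv k e).toRingHom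
  have hf₄ : Function.Injective f₄ := (Matrix.reindexRingEquiv k e).injective
  let f := (f₄.comp f₃).comp f₂
  have hf : Function.Injective f := (hf₄.comp hf₃).comp hf₂
  refine hC.of_injective _ _ (Units.map f.toMonoidHom) ?_ (hk (Fintype.card (Fin n × V)))
  intro x y h
  ext1
  exact hf (congrArg Units.val h)

/-- the action on the general linear group of the group ring induced by an action on the group: the
automorphism `σ` of `L` takes a matrix with the entries `∑ c v` to the matrix with the entries
`∑ c σ(v)` -/
noncomputable def glAct (k : Type) [CommRing k] (n : ℕ) {L H : Type} [Group L] [Group H]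
    (θ : H →* MulAut L) : H →* MulAut (GLG k n L) := ((glFun k n).aut L).comp θ

/-- **General linear groups of group rings of locally finite groups.** -/
theorem gl_mem (hC : Closed C) (hE : ExtClosed C) (k : Type) [CommRing k]
    (hk : ∀ m : ℕ, C (Matrix (Fin m) (Fin m) k)ˣ) (n : ℕ) (L H : Type) [Group L] [Group H]
    (hL : LocFin L) (hH : C H) (θ : H →* MulAut L) :
    C (GLG k n L ⋊[glAct k n θ] H) := by
  refine approx_sd hC hE (glAct k n θ) ?_ hH ?_
  · exact (glFun k n).obj_mem hC (fun V _ _ => gl_fin hC k hk n V) L hL
  · intro q _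
    exact (glFun k n).approx (fun V _ _ => gl_fin hC k hk n V) hL (θ q)

end Pool.Agent.H106FJ
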